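import Pool.Agent.R781.WR.Main2

/-!
# Dense sets and `k`-th powers: corollaries
-/

set_option autoImplicit false

namespace Pool.Agent.R781.WR

open Finset Filter
open Pool.Agent.R500.WB (Loc)

lemma quarter {A : Set ℕ} {δ : ℝ} (hδ : 0 < δ)
    (hA : ∀ᶠ N : ℕ in atTop, δ * N ≤ ((A ∩ Set.Iio N).ncard : ℝ)) :
    ∀ᶠ n : ℕ in atTop, δ / 8 * n ≤ ((A ∩ {a | 4 * a < n}).ncard : ℝ) := by
  have h1 : Tendsto (fun n : ℕ => n / 4) atTop atTop := Nat.tendsto_div_const_atTop (by norm_num)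
  filter_upwards [h1.eventually hA, eventually_ge_atTop 8] with n hn hn8
  have h2 : A ∩ Set.Iio (n / 4) ⊆ A ∩ {a | 4 * a < n} := by
    rintro a ⟨ha, ha2⟩
    have ha3 : a < n / 4 := ha2
    exact ⟨ha, show 4 * a < n by omega⟩
  have h3 : (A ∩ {a | 4 * a < n}).Finite := by
    refine (Set.finite_Iio n).subset ?_
    rintro a ⟨-, ha⟩
    have ha3 : 4 * a < n := ha
    show a < n
    omega
  have h4 : ((A ∩ Set.Iio (n / 4)).ncard : ℝ) ≤ ((A ∩ {a | 4 * a < n}).ncard : ℝ) := by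
    exact_mod_cast Set.ncard_le_ncard h2 h3
  refine le_trans ?_ (hn.trans h4)
  have h5 : n ≤ 8 * (n / 4) := by omega
  have h6 : (n : ℝ) ≤ 8 * ((n / 4 : ℕ) : ℝ) := by exact_mod_cast h5
  nlinarith

/-- Two sets of positive lower density. -/
theorem both {k s : ℕ} (hk : 1 ≤ k) (hloc : ∀ q, 1 ≤ q → Loc k (s + 1) q) {A B : Set ℕ}
    (hA : ∃ δ : ℝ, 0 < δ ∧ ∀ᶠ N : ℕ in atTop, δ * N ≤ ((A ∩ Set.Iio N).ncard : ℝ))
    (hB : ∃ δ : ℝ, 0 < δ ∧ ∀ᶠ N : ℕ in atTop, δ * N ≤ ((B ∩ Set.Iio N).ncard : ℝ)) :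
    ∃ C : ℕ, ∀ᶠ n : ℕ in atTop, ∃ a ∈ A, ∃ b ∈ B, ∃ x : ℕ, 1 ≤ x ∧ ∃ c : Fin s → ℕ,
      (∀ i, 1 ≤ c i ∧ c i ≤ C) ∧ a + b + x ^ k + ∑ i, c i ^ k = n := by
  obtain ⟨δ, hδ, hA⟩ := hA
  obtain ⟨δ', hδ', hB⟩ := hB
  obtain ⟨C, hC⟩ := main2 k s hk hloc (min (δ / 8) (δ' / 8)) (by positivity)
  refine ⟨C, ?_⟩
  filter_upwards [hC, quarter hδ hA, quarter hδ' hB] with n h1 h2 h3
  have h4 : min (δ / 8) (δ' / 8) * (n : ℝ) ≤ δ / 8 * n :=
    mul_le_mul_of_nonneg_right (min_le_left _ _) (Nat.cast_nonneg n)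
  have h5 : min (δ / 8) (δ' / 8) * (n : ℝ) ≤ δ' / 8 * n :=
    mul_le_mul_of_nonneg_right (min_le_right _ _) (Nat.cast_nonneg n)
  exact h1 A B (h4.trans h2) (h5.trans h3)

/-- The sums `a + x ^ k + ∑ i, c i ^ k` with `a ∈ A`, `x ≥ 1` and `1 ≤ c i ≤ C`. -/
def Sums (k s C : ℕ) (A : Set ℕ) : Set ℕ :=
  {n | ∃ a ∈ A, ∃ x : ℕ, 1 ≤ x ∧ ∃ c : Fin s → ℕ,
    (∀ i, 1 ≤ c i ∧ c i ≤ C) ∧ a + x ^ k + ∑ i, c i ^ k = n}

/-- One set of positive lower density: almost all integers. -/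
theorem almost {k s : ℕ} (hk : 1 ≤ k) (hloc : ∀ q, 1 ≤ q → Loc k (s + 1) q) {A : Set ℕ}
    (hA : ∃ δ : ℝ, 0 < δ ∧ ∀ᶠ N : ℕ in atTop, δ * N ≤ ((A ∩ Set.Iio N).ncard : ℝ)) {ε : ℝ}
    (hε : 0 < ε) :
    ∃ C : ℕ, ∀ᶠ N : ℕ in atTop, (1 - ε) * N ≤ ((Sums k s C A ∩ Set.Iio N).ncard : ℝ) := by
  classical
  obtain ⟨δ, hδ, hA⟩ := hA
  set d : ℝ := min (δ / 8) (ε / 8) with hd
  have hd0 : 0 < d := by positivity
  obtain ⟨C, hC⟩ := main2 k s hk hloc d hd0
  refine ⟨C, ?_⟩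
  obtain ⟨N₀, hN₀⟩ := eventually_atTop.1 (hC.and (quarter hδ hA))
  set T : Set ℕ := Sums k s C A with hT
  set E : ℕ → ℕ := fun n => ((range (n + 1)).filter (fun m => m ∉ T)).card with hE
  -- the exceptional integers in `(3 n / 4, n]`
  have hstep : ∀ n, N₀ ≤ n → (E n : ℝ) ≤ E (3 * n / 4) + ε / 8 * n := by
    intro n hn
    obtain ⟨h1, h2⟩ := hN₀ n hn
    set B : Set ℕ := {b | b ≤ n ∧ n - b ∉ T} with hB
    have h3 : ((B ∩ {b | 4 * b < n}).ncard : ℝ) < d * n := by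
      by_contra hcon
      push Not at hcon
      have h4 : d * (n : ℝ) ≤ δ / 8 * n :=
        mul_le_mul_of_nonneg_right (min_le_left _ _) (Nat.cast_nonneg n)
      obtain ⟨a, ha, b, hb, x, hx, c, hc, habx⟩ := h1 A B (h4.trans h2) hcon
      refine hb.2 ⟨a, ha, x, hx, c, hc, ?_⟩
      have := hb.1
      omega
    have h4 : ((range (n + 1)).filter (fun m => m ∉ T)) ⊆
        ((range (3 * n / 4 + 1)).filter (fun m => m ∉ T)) ∪
        (((range (n + 1)).filter (fun b => b ∈ B ∧ 4 * b < n)).image (fun b => n - b)) := by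
      intro m hm
      rw [mem_filter, mem_range] at hm
      rw [mem_union]
      by_cases h5 : m ≤ 3 * n / 4
      · left
        rw [mem_filter, mem_range]
        exact ⟨by omega, hm.2⟩
      · right
        rw [mem_image]
        refine ⟨n - m, ?_, by omega⟩
        rw [mem_filter, mem_range]
        refine ⟨by omega, ⟨by omega, ?_⟩, by omega⟩
        have : n - (n - m) = m := by omega
        rw [this]
        exact hm.2
    have h5 := (card_le_card h4).trans ((card_union_le _ _).trans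
      (Nat.add_le_add_left card_image_le _))
    have h6 : B ∩ {b | 4 * b < n} = (((range (n + 1)).filter (fun b => b ∈ B ∧ 4 * b < n) : Finset ℕ) : Set ℕ) := by
      ext b
      rw [mem_coe, mem_filter, mem_range]
      constructor
      · rintro ⟨h7, h8⟩
        have h9 : 4 * b < n := h8
        exact ⟨by omega, h7, h9⟩
      · rintro ⟨-, h7, h8⟩
        exact ⟨h7, h8⟩
    rw [h6, Set.ncard_coe_finset] at h3
    have h7 : (E n : ℝ) ≤ E (3 * n / 4) + (((range (n + 1)).filter (fun b => b ∈ B ∧ 4 * b < n)).card : ℝ) := by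
      exact_mod_cast h5
    have h8 : d * (n : ℝ) ≤ ε / 8 * n :=
      mul_le_mul_of_nonneg_right (min_le_right _ _) (Nat.cast_nonneg n)
    linarith
  have hall : ∀ n, (E n : ℝ) ≤ ε / 2 * n + (N₀ + 1) := by
    intro n
    induction n using Nat.strong_induction_on with
    | _ n ih =>
      by_cases hn : N₀ ≤ n ∧ 1 ≤ n
      · have h1 := hstep n hn.1
        have h2 := ih (3 * n / 4) (by omega)
        have h3 : ((3 * n / 4 : ℕ) : ℝ) ≤ 3 * n / 4 := by
          have h4 : 4 * (3 * n / 4) ≤ 3 * n := Nat.mul_div_le _ _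
          have h5 : (4 : ℝ) * ((3 * n / 4 : ℕ) : ℝ) ≤ 3 * n := by exact_mod_cast h4
          linarith
        have h4 : ε / 2 * ((3 * n / 4 : ℕ) : ℝ) ≤ ε / 2 * (3 * n / 4) :=
          mul_le_mul_of_nonneg_left h3 (by positivity)
        have h5 : ε / 2 * (3 * (n : ℝ) / 4) + ε / 8 * n = ε / 2 * n := by ring
        linarith
      · have h1 : E n ≤ n + 1 := by
          have := card_filter_le (range (n + 1)) (fun m => m ∉ T)
          rwa [card_range] at this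
        have h2 : n ≤ N₀ := by omega
        have h3 : (E n : ℝ) ≤ N₀ + 1 := by exact_mod_cast h1.trans (by omega)
        have h4 : 0 ≤ ε / 2 * (n : ℝ) := by positivity
        linarith
  have hlarge : ∀ᶠ N : ℕ in atTop, (N₀ + 1 : ℝ) ≤ ε / 2 * N := by
    have h1 : Tendsto (fun n : ℕ => ε / 2 * (n : ℝ)) atTop atTop :=
      tendsto_natCast_atTop_atTop.const_mul_atTop (by positivity)
    exact h1.eventually_ge_atTop _
  filter_upwards [hlarge] with N hN
  have h1 : T ∩ Set.Iio N = (((range N).filter (fun m => m ∈ T) : Finset ℕ) : Set ℕ) := by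
    ext m
    rw [mem_coe, mem_filter, mem_range]
    exact ⟨fun h => ⟨h.2, h.1⟩, fun h => ⟨h.2, h.1⟩⟩
  rw [h1, Set.ncard_coe_finset]
  have h2 : ((range N).filter (fun m => m ∈ T)).card + ((range N).filter (fun m => m ∉ T)).card = N := by
    rw [card_filter_add_card_filter_not, card_range]
  have h3 : ((range N).filter (fun m => m ∉ T)).card ≤ E N := by
    apply card_le_card
    apply filter_subset_filter
    exact range_subset_range.2 (by omega)
  have h4 := hall N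
  have h5 : (N : ℝ) = ((range N).filter (fun m => m ∈ T)).card + ((range N).filter (fun m => m ∉ T)).card := by
    exact_mod_cast h2.symm
  have h6 : (((range N).filter (fun m => m ∉ T)).card : ℝ) ≤ E N := by exact_mod_cast h3
  nlinarith

/-- The multiples of `q` have positive lower density. -/
lemma mult_dens {q : ℕ} (hq : 1 ≤ q) :
    ∃ δ : ℝ, 0 < δ ∧ ∀ᶠ N : ℕ in atTop, δ * N ≤ (({a | q ∣ a} ∩ Set.Iio N : Set ℕ).ncard : ℝ) := by
  have hq0 : (0 : ℝ) < q := by exact_mod_cast hq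
  refine ⟨1 / (2 * q), by positivity, ?_⟩
  filter_upwards [eventually_ge_atTop q] with N hN
  have h1 : (((range (N / q)).image (fun j => q * j) : Finset ℕ) : Set ℕ) ⊆
      ({a | q ∣ a} ∩ Set.Iio N : Set ℕ) := by
    intro a ha
    obtain ⟨j, hj, rfl⟩ := mem_image.1 (mem_coe.1 ha)
    have hj' := mem_range.1 hj
    refine ⟨Dvd.intro _ rfl, ?_⟩
    show q * j < N
    calc q * j < q * (N / q) := Nat.mul_lt_mul_of_pos_left hj' hq
      _ ≤ N := Nat.mul_div_le _ _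
  have h2 := Set.ncard_le_ncard h1 ((Set.finite_Iio N).subset Set.inter_subset_right)
  rw [Set.ncard_coe_finset, card_image_of_injective _ (fun a b hab => Nat.eq_of_mul_eq_mul_left hq hab),
    card_range] at h2
  have h3 : ((N / q : ℕ) : ℝ) ≤ (({a | q ∣ a} ∩ Set.Iio N : Set ℕ).ncard : ℝ) := by exact_mod_cast h2
  refine le_trans ?_ h3
  have h4 : N < q * (N / q + 1) := by
    have := Nat.div_add_mod N q
    have := Nat.mod_lt N hq
    nlinarith
  have h5 : 1 ≤ N / q := (Nat.one_le_div_iff hq).2 hN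
  have h6 : N ≤ 2 * q * (N / q) := by nlinarith
  have h7 : (N : ℝ) ≤ 2 * q * ((N / q : ℕ) : ℝ) := by exact_mod_cast h6
  rw [div_mul_eq_mul_div, one_mul, div_le_iff₀ (by positivity)]
  linarith

end Pool.Agent.R781.WR
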