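import Pool.Agent.R781.WR.Stm

/-!
# The core inequality
-/

set_option autoImplicit false

namespace Pool.Agent.R781.WR

open Finset
open Pool.Agent.Helper602.MK (ee)

/-- the bilinear count -/
noncomputable def S0 (H Y : ℕ) (w : ℕ → ℤ) (h g : ℕ → ℝ) : ℝ :=
  ∑ y ∈ range Y, ∑ i ∈ range H, ∑ j ∈ range H, h i * g j * (if (i : ℤ) + j = w y then (1 : ℝ) else 0)

/-- the averaged bilinear count -/
noncomputable def S1 (H Y L ρ : ℕ) (w : ℕ → ℤ) (h g : ℕ → ℝ) : ℝ :=
  ∑ y ∈ range Y, ∑ i ∈ range H, ∑ j ∈ range H, h i * g j *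
    ((1 / (L : ℝ)) * ∑ l ∈ range L, (if (i : ℤ) + j + ρ * l = w y then (1 : ℝ) else 0))

lemma four_apply (hF : SFourier) {H Y L ρ : ℕ} {w : ℕ → ℤ} {h g : ℕ → ℝ} {B : ℝ} (hL : 1 ≤ L) (hB : 0 ≤ B)
    (hb : ∀ β : ℝ, ‖∑ y ∈ range Y, ee (β * w y)‖ * ‖om L ρ β‖ ≤ B) :
    |S0 H Y w h g - S1 H Y L ρ w h g| ≤
      B * Real.sqrt (∑ i ∈ range H, h i ^ 2) * Real.sqrt (∑ j ∈ range H, g j ^ 2) := by
  have h1 := hF H Y L ρ w h g B hL hB hb
  have h2 : S0 H Y w h g - S1 H Y L ρ w h g = ∑ y ∈ range Y, ∑ i ∈ range H, ∑ j ∈ range H, h i * g j *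
      ((if (i : ℤ) + j = w y then (1 : ℝ) else 0) -
        (1 / (L : ℝ)) * ∑ l ∈ range L, (if (i : ℤ) + j + ρ * l = w y then (1 : ℝ) else 0)) := by
    unfold S0 S1
    rw [← sum_sub_distrib]
    refine sum_congr rfl fun y _ => ?_
    rw [← sum_sub_distrib]
    refine sum_congr rfl fun i _ => ?_
    rw [← sum_sub_distrib]
    refine sum_congr rfl fun j _ => ?_
    ring
  rw [h2]
  exact h1

lemma S0_add (H Y : ℕ) (w : ℕ → ℤ) (h g g' : ℕ → ℝ) :
    S0 H Y w h (fun j => g j + g' j) = S0 H Y w h g + S0 H Y w h g' := by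
  unfold S0
  rw [← sum_add_distrib]
  refine sum_congr rfl fun y _ => ?_
  rw [← sum_add_distrib]
  refine sum_congr rfl fun i _ => ?_
  rw [← sum_add_distrib]
  refine sum_congr rfl fun j _ => ?_
  ring

lemma S0_comm (H Y : ℕ) (w : ℕ → ℤ) (h g : ℕ → ℝ) : S0 H Y w h g = S0 H Y w g h := by
  unfold S0
  refine sum_congr rfl fun y _ => ?_
  rw [sum_comm]
  refine sum_congr rfl fun i _ => ?_
  refine sum_congr rfl fun j _ => ?_
  rw [add_comm (j : ℤ) (i : ℤ), mul_comm (h j) (g i)]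

lemma S0_congr {H Y : ℕ} {w : ℕ → ℤ} {h g g' : ℕ → ℝ} (hg : ∀ j < H, g j = g' j) :
    S0 H Y w h g = S0 H Y w h g' := by
  unfold S0
  refine sum_congr rfl fun y _ => sum_congr rfl fun i _ => sum_congr rfl fun j hj => ?_
  rw [hg j (mem_range.1 hj)]

/-- the main term -/
lemma S0_const {H Y : ℕ} {w : ℕ → ℤ} {f : ℝ} (hw : ∀ y < Y, (H : ℤ) ≤ 4 * w y ∧ w y < H) :
    f ^ 2 * (Y * (H / 4)) ≤ S0 H Y w (fun _ => f) (fun _ => f) := by
  unfold S0
  have h1 : ∀ y ∈ range Y, f ^ 2 * ((H : ℝ) / 4) ≤ ∑ i ∈ range H, ∑ j ∈ range H,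
      f * f * (if (i : ℤ) + j = w y then (1 : ℝ) else 0) := by
    intro y hy
    obtain ⟨h2, h3⟩ := hw y (mem_range.1 hy)
    obtain ⟨W, hW⟩ : ∃ W : ℕ, w y = W := ⟨(w y).toNat, by omega⟩
    rw [hW] at h2 h3 ⊢
    have h4 : W + 1 ≤ H := by omega
    have h5 : ∑ i ∈ range (W + 1), f * f ≤ ∑ i ∈ range H, ∑ j ∈ range H,
        f * f * (if (i : ℤ) + j = (W : ℤ) then (1 : ℝ) else 0) := by
      refine (sum_le_sum fun i hi => ?_).trans (sum_le_sum_of_subset_of_nonneg (range_subset_range.2 h4) ?_)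
      · have hi' : i ≤ W := Nat.lt_succ_iff.1 (mem_range.1 hi)
        have h60 : (i : ℤ) + ((W - i : ℕ) : ℤ) = (W : ℤ) := by omega
        have h6 : f * f * (if (i : ℤ) + ((W - i : ℕ) : ℤ) = (W : ℤ) then (1 : ℝ) else 0) = f * f := by
          rw [if_pos h60, mul_one]
        have hWi : W - i < H := by omega
        exact h6.symm.le.trans (single_le_sum
          (f := fun j : ℕ => f * f * (if (i : ℤ) + j = (W : ℤ) then (1 : ℝ) else 0))
          (fun j _ => mul_nonneg (mul_self_nonneg f) (by split_ifs <;> norm_num))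
          (mem_range.2 hWi))
      · intro i _ _
        exact sum_nonneg fun j _ => mul_nonneg (mul_self_nonneg f) (by split_ifs <;> norm_num)
    refine le_trans ?_ h5
    rw [sum_const, card_range, nsmul_eq_mul]
    have h7 : (H : ℝ) / 4 ≤ ((W + 1 : ℕ) : ℝ) := by
      have : (H : ℝ) ≤ 4 * W := by exact_mod_cast h2
      push_cast
      linarith
    nlinarith [mul_self_nonneg f]
  calc f ^ 2 * (Y * (H / 4)) = ∑ y ∈ range Y, f ^ 2 * ((H : ℝ) / 4) := by
        rw [sum_const, card_range, nsmul_eq_mul]; ring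
    _ ≤ _ := sum_le_sum h1

/-- the `L¹`-bound for the averaged function -/
lemma l1_bound {H L ρ : ℕ} {α : ℤ → ℝ} {f η : ℝ} (hf : 0 < f) (hη : 0 ≤ η) (hη1 : η ≤ 1)
    (hα0 : ∀ v, v < 0 ∨ (H : ℤ) ≤ v → α v = 0)
    (hsum : ∑ j ∈ range H, α j = f * H)
    (hmax : ∀ v : ℤ, ∑ l ∈ range L, α (v + ρ * l) ≤ (1 + η) * f * L)
    (hρL : 4 * (ρ : ℝ) * L ≤ η * H) (g : ℤ → ℝ)
    (hg : g = fun v => α v - if 0 ≤ v ∧ v < H then f else 0) :
    ∑ v ∈ Ico (0 : ℤ) (H + ρ * L), |∑ l ∈ range L, g (v - ρ * l)| ≤ 4 * f * L * (η * H) ∧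
    ∀ v : ℤ, v ∉ Ico (0 : ℤ) (H + ρ * L) → ∑ l ∈ range L, g (v - ρ * l) = 0 := by
  have hg0 : ∀ v, v < 0 ∨ (H : ℤ) ≤ v → g v = 0 := by
    intro v hv
    rw [hg]
    simp only
    rw [hα0 v hv, if_neg (by omega), sub_zero]
  have hout : ∀ v : ℤ, v ∉ Ico (0 : ℤ) (H + ρ * L) → ∑ l ∈ range L, g (v - ρ * l) = 0 := by
    intro v hv
    rw [mem_Ico, not_and_or, not_le, not_lt] at hv
    refine sum_eq_zero fun l hl => hg0 _ ?_
    have hl' : (l : ℤ) < L := by exact_mod_cast mem_range.1 hl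
    rcases hv with hv | hv
    · left
      have : (0 : ℤ) ≤ ρ * l := by positivity
      omega
    · right
      have h1 : (ρ : ℤ) * l ≤ ρ * L := by gcongr
      omega
  refine ⟨?_, hout⟩
  set G : ℤ → ℝ := fun v => ∑ l ∈ range L, g (v - ρ * l) with hG
  -- the sum of `g`
  have hcast : ∀ φ : ℤ → ℝ, ∑ j ∈ Ico (0 : ℤ) H, φ j = ∑ j ∈ range H, φ (j : ℤ) := by
    intro φ
    symm
    refine sum_nbij (fun j : ℕ => (j : ℤ)) ?_ ?_ ?_ ?_
    · intro j hj
      have := mem_range.1 hj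
      rw [mem_Ico]
      omega
    · intro i _ j _ h
      exact Int.ofNat_inj.1 h
    · intro v hv
      have hv' := mem_Ico.1 (mem_coe.1 hv)
      exact ⟨v.toNat, mem_coe.2 (mem_range.2 (by omega)), by simp only; omega⟩
    · intro j _
      rfl
  have hgs : ∑ j ∈ Ico (0 : ℤ) H, g j = 0 := by
    have h2 : ∑ j ∈ Ico (0 : ℤ) H, g j = ∑ j ∈ Ico (0 : ℤ) H, (α j - f) := by
      refine sum_congr rfl fun v hv => ?_
      rw [hg]
      simp only
      rw [if_pos (mem_Ico.1 hv)]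
    rw [h2, sum_sub_distrib, hcast α, hsum, sum_const, Int.card_Ico, nsmul_eq_mul]
    simp
    ring
  have hshift : ∀ l ∈ range L, ∑ v ∈ Ico (0 : ℤ) (H + ρ * L), g (v - ρ * l) = 0 := by
    intro l hl
    have hl' : (l : ℤ) < L := by exact_mod_cast mem_range.1 hl
    have h3 : (ρ : ℤ) * l ≤ ρ * L := by gcongr
    have h4 : (0 : ℤ) ≤ ρ * l := by positivity
    have h1 : ∑ x ∈ Ico (0 : ℤ) H, g x = ∑ v ∈ (Ico (0 : ℤ) H).image (fun x : ℤ => x + (ρ : ℤ) * l), g (v - ρ * l) := by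
      rw [sum_image (fun a _ b _ hab => by simpa using hab)]
      simp
    rw [← hgs, h1]
    symm
    refine sum_subset ?_ ?_
    · intro v hv
      obtain ⟨x, hx, rfl⟩ := mem_image.1 hv
      rw [mem_Ico] at hx ⊢
      omega
    · intro v _ hv
      refine hg0 _ ?_
      by_contra hcon
      push Not at hcon
      exact hv (mem_image.2 ⟨v - ρ * l, mem_Ico.2 hcon, by ring⟩)
  have hGs : ∑ v ∈ Ico (0 : ℤ) (H + ρ * L), G v = 0 := by
    rw [hG]
    simp only
    rw [sum_comm]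
    exact sum_eq_zero hshift
  -- upper bounds
  have hα1 : ∀ v : ℤ, ∑ l ∈ range L, α (v - ρ * l) ≤ (1 + η) * f * L := by
    intro v
    have h1 := hmax (v - ρ * ((L : ℤ) - 1))
    rw [← sum_range_reflect] at h1
    refine le_trans (le_of_eq (sum_congr rfl fun l hl => ?_)) h1
    have hl' := mem_range.1 hl
    congr 1
    have : ((L - 1 - l : ℕ) : ℤ) = (L : ℤ) - 1 - l := by omega
    rw [this]
    ring
  have hind : ∀ v : ℤ, (0 : ℝ) ≤ if 0 ≤ v ∧ v < (H : ℤ) then f else 0 := by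
    intro v
    split_ifs
    · exact hf.le
    · exact le_rfl
  have hLn : (0 : ℝ) ≤ L := Nat.cast_nonneg L
  have hGle : ∀ v, G v ≤ 2 * f * L := by
    intro v
    have h1 : G v ≤ ∑ l ∈ range L, α (v - ρ * l) := by
      rw [hG, hg]
      simp only
      refine sum_le_sum fun l _ => ?_
      have := hind (v - ρ * l)
      linarith
    refine h1.trans ((hα1 v).trans ?_)
    have : (1 + η) * f * L ≤ 2 * f * L := by
      apply mul_le_mul_of_nonneg_right _ hLn
      nlinarith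
    exact this
  have hGin : ∀ v : ℤ, (ρ : ℤ) * L ≤ v → v < H → G v ≤ η * f * L := by
    intro v hv1 hv2
    have h1 : G v = ∑ l ∈ range L, α (v - ρ * l) - f * L := by
      rw [hG, hg]
      simp only
      rw [sum_sub_distrib]
      congr 1
      rw [sum_congr rfl (g := fun _ => f) (fun l hl => ?_)]
      · rw [sum_const, card_range, nsmul_eq_mul]; ring
      · have hl' : (l : ℤ) < L := by exact_mod_cast mem_range.1 hl
        have h3 : (ρ : ℤ) * l ≤ ρ * L := by gcongr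
        have h4 : (0 : ℤ) ≤ ρ * l := by positivity
        rw [if_pos (by constructor <;> omega)]
    rw [h1]
    have := hα1 v
    linarith
  have hmaxb : ∀ v : ℤ, max (G v) 0 ≤ (if v ∈ Ico (0 : ℤ) H then η * f * L else 0) +
      (if v ∈ Ico (0 : ℤ) (ρ * L) then 2 * f * L else 0) +
      (if v ∈ Ico (H : ℤ) (H + ρ * L) then 2 * f * L else 0) := by
    intro v
    have p1 : 0 ≤ η * f * L := by positivity
    have p2 : 0 ≤ 2 * f * L := by positivity
    by_cases h1 : v ∈ Ico (0 : ℤ) (H + ρ * L)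
    · rw [mem_Ico] at h1
      by_cases h2 : v < ρ * L
      · have h3 : v ∈ Ico (0 : ℤ) (ρ * L) := mem_Ico.2 ⟨h1.1, h2⟩
        rw [if_pos h3]
        have h4 := max_le (hGle v) p2
        split_ifs <;> linarith
      · by_cases h5 : v < H
        · have h3 : v ∈ Ico (0 : ℤ) H := mem_Ico.2 ⟨h1.1, h5⟩
          rw [if_pos h3]
          have h4 := max_le (hGin v (by omega) h5) p1
          split_ifs <;> linarith
        · have h3 : v ∈ Ico (H : ℤ) (H + ρ * L) := mem_Ico.2 ⟨by omega, h1.2⟩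
          rw [if_pos h3]
          have h4 := max_le (hGle v) p2
          split_ifs <;> linarith
    · have h4 : G v = 0 := hout v h1
      rw [h4, max_self]
      split_ifs <;> linarith
  have hsumb : ∑ v ∈ Ico (0 : ℤ) (H + ρ * L), max (G v) 0 ≤
      H * (η * f * L) + (ρ * L) * (2 * f * L) + (ρ * L) * (2 * f * L) := by
    refine (sum_le_sum fun v _ => hmaxb v).trans ?_
    rw [sum_add_distrib, sum_add_distrib, sum_ite_mem, sum_ite_mem, sum_ite_mem, sum_const, sum_const,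
      sum_const, nsmul_eq_mul, nsmul_eq_mul, nsmul_eq_mul]
    have c1 : ((Ico (0 : ℤ) (H + ρ * L) ∩ Ico (0 : ℤ) H).card : ℝ) ≤ H := by
      have := card_le_card (inter_subset_right (s₁ := Ico (0 : ℤ) (H + ρ * L)) (s₂ := Ico (0 : ℤ) H))
      rw [Int.card_Ico] at this
      exact_mod_cast this.trans (by simp)
    have c2 : ((Ico (0 : ℤ) (H + ρ * L) ∩ Ico (0 : ℤ) (ρ * L)).card : ℝ) ≤ ρ * L := by
      have := card_le_card (inter_subset_right (s₁ := Ico (0 : ℤ) (H + ρ * L)) (s₂ := Ico (0 : ℤ) (ρ * L)))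
      rw [Int.card_Ico] at this
      have h2 : ((ρ * L : ℤ) - 0).toNat = ρ * L := by
        rw [sub_zero]
        exact_mod_cast Int.toNat_natCast (ρ * L)
      rw [h2] at this
      exact_mod_cast this
    have c3 : ((Ico (0 : ℤ) (H + ρ * L) ∩ Ico (H : ℤ) (H + ρ * L)).card : ℝ) ≤ ρ * L := by
      have := card_le_card (inter_subset_right (s₁ := Ico (0 : ℤ) (H + ρ * L))
        (s₂ := Ico (H : ℤ) (H + ρ * L)))
      rw [Int.card_Ico] at this
      have h2 : ((H : ℤ) + ρ * L - H).toNat = ρ * L := by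
        rw [add_sub_cancel_left]
        exact_mod_cast Int.toNat_natCast (ρ * L)
      rw [h2] at this
      exact_mod_cast this
    have p1 : 0 ≤ η * f * L := by positivity
    have p2 : 0 ≤ 2 * f * L := by positivity
    gcongr
  have habs : ∑ v ∈ Ico (0 : ℤ) (H + ρ * L), |G v| =
      2 * ∑ v ∈ Ico (0 : ℤ) (H + ρ * L), max (G v) 0 := by
    have h1 : ∀ v ∈ Ico (0 : ℤ) (H + ρ * L), |G v| = 2 * max (G v) 0 - G v := by
      intro v _
      rcases le_total (G v) 0 with h | h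
      · rw [abs_of_nonpos h, max_eq_right h]; ring
      · rw [abs_of_nonneg h, max_eq_left h]; ring
    rw [sum_congr rfl h1, sum_sub_distrib, hGs, sub_zero, mul_sum]
  rw [habs]
  have hfin : 2 * (H * (η * f * L) + (ρ * L) * (2 * f * L) + (ρ * L) * (2 * f * L)) ≤
      4 * f * L * (η * H) := by
    have h1 : f * L * (4 * ρ * L) ≤ f * L * (η * H) := by
      apply mul_le_mul_of_nonneg_left hρL (by positivity)
    nlinarith
  linarith

/-- the averaged count is small when one of the functions is balanced -/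
lemma S1_bound {H Y L ρ : ℕ} {w : ℕ → ℤ} {α : ℤ → ℝ} {f η : ℝ} (hL : 1 ≤ L) (hf : 0 < f) (hη : 0 ≤ η)
    (hη1 : η ≤ 1) (hα0 : ∀ v, v < 0 ∨ (H : ℤ) ≤ v → α v = 0)
    (hsum : ∑ j ∈ range H, α j = f * H)
    (hmax : ∀ v : ℤ, ∑ l ∈ range L, α (v + ρ * l) ≤ (1 + η) * f * L)
    (hρL : 4 * (ρ : ℝ) * L ≤ η * H) (h : ℕ → ℝ) (hh : ∀ i < H, |h i| ≤ 1) (g : ℤ → ℝ)
    (hg : g = fun v => α v - if 0 ≤ v ∧ v < H then f else 0) :
    |S1 H Y L ρ w h (fun j => g j)| ≤ Y * (4 * f * (η * H)) := by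
  obtain ⟨hb, hout⟩ := l1_bound hf hη hη1 hα0 hsum hmax hρL g hg
  have hg0 : ∀ v, v < 0 ∨ (H : ℤ) ≤ v → g v = 0 := by
    intro v hv
    rw [hg]
    simp only
    rw [hα0 v hv, if_neg (by omega), sub_zero]
  have hL0 : (0 : ℝ) < L := by exact_mod_cast hL
  -- the inner sum
  have hin : ∀ v : ℤ, ∑ j ∈ range H, g j * (if (j : ℤ) = v then (1 : ℝ) else 0) = g v := by
    intro v
    by_cases hv : 0 ≤ v ∧ v < (H : ℤ)
    · obtain ⟨V, rfl⟩ : ∃ V : ℕ, v = V := ⟨v.toNat, by omega⟩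
      have hV : V ∈ range H := mem_range.2 (by omega)
      rw [sum_eq_single_of_mem V hV]
      · simp
      · intro j _ hj
        rw [if_neg (by exact_mod_cast hj), mul_zero]
    · rw [hg0 v (by omega)]
      refine sum_eq_zero fun j hj => ?_
      have hj' := mem_range.1 hj
      rw [if_neg (by omega), mul_zero]
  have hy : ∀ y ∈ range Y, |∑ i ∈ range H, ∑ j ∈ range H, h i * g j *
      ((1 / (L : ℝ)) * ∑ l ∈ range L, (if (i : ℤ) + j + ρ * l = w y then (1 : ℝ) else 0))| ≤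
      4 * f * (η * H) := by
    intro y _
    have h1 : ∑ i ∈ range H, ∑ j ∈ range H, h i * g j *
      ((1 / (L : ℝ)) * ∑ l ∈ range L, (if (i : ℤ) + j + ρ * l = w y then (1 : ℝ) else 0)) =
      (1 / (L : ℝ)) * ∑ i ∈ range H, h i * ∑ l ∈ range L, g (w y - i - ρ * l) := by
      rw [mul_sum]
      refine sum_congr rfl fun i _ => ?_
      have h2 : ∀ l ∈ range L, g (w y - i - ρ * l) =
          ∑ j ∈ range H, g j * (if (i : ℤ) + j + ρ * l = w y then (1 : ℝ) else 0) := by
        intro l _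
        rw [← hin]
        refine sum_congr rfl fun j _ => ?_
        congr 1
        by_cases h3 : (j : ℤ) = w y - i - ρ * l
        · rw [if_pos h3, if_pos (by rw [h3]; ring)]
        · rw [if_neg h3, if_neg (fun h4 => h3 (by rw [← h4]; ring))]
      rw [sum_congr rfl h2, sum_comm, mul_sum, mul_sum]
      refine sum_congr rfl fun j _ => ?_
      rw [← mul_sum]
      ring
    rw [h1, abs_mul, abs_of_nonneg (by positivity)]
    have h5 : |∑ i ∈ range H, h i * ∑ l ∈ range L, g (w y - i - ρ * l)| ≤ 4 * f * L * (η * H) := by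
      refine (abs_sum_le_sum_abs _ _).trans ?_
      refine le_trans (sum_le_sum (g := fun i : ℕ => |∑ l ∈ range L, g (w y - i - ρ * l)|)
        fun i hi => ?_) ?_
      · rw [abs_mul]
        exact mul_le_of_le_one_left (abs_nonneg _) (hh i (mem_range.1 hi))
      · refine le_trans ?_ hb
        have h6 : ∑ i ∈ range H, |∑ l ∈ range L, g (w y - i - ρ * l)| =
            ∑ v ∈ (range H).image (fun i : ℕ => w y - (i : ℤ)), |∑ l ∈ range L, g (v - ρ * l)| := by
          rw [sum_image]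
          intro a _ b _ hab
          have : w y - (a : ℤ) = w y - (b : ℤ) := hab
          omega
        rw [h6]
        have h7 : ∑ v ∈ (range H).image (fun i : ℕ => w y - (i : ℤ)), |∑ l ∈ range L, g (v - ρ * l)| =
            ∑ v ∈ (range H).image (fun i : ℕ => w y - (i : ℤ)) ∩ Ico (0 : ℤ) (H + ρ * L),
              |∑ l ∈ range L, g (v - ρ * l)| := by
          symm
          refine sum_subset inter_subset_left fun v hv hv2 => ?_
          rw [hout v (fun h8 => hv2 (mem_inter.2 ⟨hv, h8⟩)), abs_zero]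
        rw [h7]
        exact sum_le_sum_of_subset_of_nonneg inter_subset_right fun v _ _ => abs_nonneg _
    calc 1 / (L : ℝ) * |∑ i ∈ range H, h i * ∑ l ∈ range L, g (w y - i - ρ * l)|
        ≤ 1 / (L : ℝ) * (4 * f * L * (η * H)) := mul_le_mul_of_nonneg_left h5 (by positivity)
      _ = 4 * f * (η * H) := by field_simp
  unfold S1
  refine (abs_sum_le_sum_abs _ _).trans ((sum_le_sum hy).trans (le_of_eq ?_))
  rw [sum_const, card_range, nsmul_eq_mul]

theorem t_CORE (hF : SFourier) : SCore := by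
  intro H Y L ρ w α f η ε hH hY hL hρ hf hη hε hα hα0 hsum hmax hρL hw hW hηε
  by_contra hno
  push Not at hno
  have hH0 : (0 : ℝ) < H := by exact_mod_cast hH
  have hY0 : (0 : ℝ) < Y := by exact_mod_cast hY
  -- `f ≤ 1`
  have hf1 : f ≤ 1 := by
    have h1 : ∑ j ∈ range H, α j ≤ ∑ j ∈ range H, (1 : ℝ) := sum_le_sum fun j _ => (hα j).2
    rw [hsum, sum_const, card_range, nsmul_eq_mul, mul_one] at h1
    nlinarith
  have hη1 : η ≤ 1 := by linarith
  set g : ℤ → ℝ := fun v => α v - if 0 ≤ v ∧ v < H then f else 0 with hg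
  have hgH : ∀ j < H, g (j : ℤ) = α j - f := by
    intro j hj
    rw [hg]
    simp only
    rw [if_pos ⟨by omega, by omega⟩]
  -- the norms
  have hα2 : ∑ i ∈ range H, (α i) ^ 2 ≤ f * H := by
    rw [← hsum]
    refine sum_le_sum fun i _ => ?_
    have := hα i
    nlinarith [this.1, this.2]
  have hf2 : ∑ i ∈ range H, (f : ℝ) ^ 2 ≤ f * H := by
    rw [sum_const, card_range, nsmul_eq_mul]
    have h1 : f * H * f ≤ f * H * 1 := mul_le_mul_of_nonneg_left hf1 (by positivity)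
    calc (H : ℝ) * f ^ 2 = f * H * f := by ring
      _ ≤ f * H * 1 := h1
      _ = f * H := mul_one _
  have hg2 : ∑ j ∈ range H, (g j) ^ 2 ≤ f * H := by
    have h1 : ∑ j ∈ range H, (g j) ^ 2 = ∑ j ∈ range H, (α j) ^ 2 - 2 * f * ∑ j ∈ range H, α j +
        ∑ j ∈ range H, f ^ 2 := by
      rw [mul_sum, ← sum_sub_distrib, ← sum_add_distrib]
      refine sum_congr rfl fun j hj => ?_
      rw [hgH j (mem_range.1 hj)]
      ring
    rw [h1, hsum, sum_const, card_range, nsmul_eq_mul]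
    have h2 : 0 ≤ f ^ 2 * H := by positivity
    nlinarith
  -- the balanced terms
  have hbal : ∀ h : ℕ → ℝ, (∀ i < H, |h i| ≤ 1) → ∑ i ∈ range H, (h i) ^ 2 ≤ f * H →
      |S0 H Y w h (fun j => g j)| ≤ Y * (4 * f * (η * H)) + 2 * ε * Y * (f * H) := by
    intro h hh hh2
    have h1 := S1_bound (Y := Y) (w := w) hL hf hη hη1 hα0 hsum hmax hρL h hh g hg
    have h2 := four_apply (H := H) hF (h := h) (g := fun j => g j) hL (by positivity) hW
    have h3 : 2 * ε * Y * Real.sqrt (∑ i ∈ range H, h i ^ 2) * Real.sqrt (∑ j ∈ range H, (g j) ^ 2) ≤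
        2 * ε * Y * (f * H) := by
      have h4 : Real.sqrt (∑ i ∈ range H, h i ^ 2) * Real.sqrt (∑ j ∈ range H, (g j) ^ 2) ≤ f * H := by
        calc Real.sqrt (∑ i ∈ range H, h i ^ 2) * Real.sqrt (∑ j ∈ range H, (g j) ^ 2)
            ≤ Real.sqrt (f * H) * Real.sqrt (f * H) :=
              mul_le_mul (Real.sqrt_le_sqrt hh2) (Real.sqrt_le_sqrt hg2) (Real.sqrt_nonneg _)
                (Real.sqrt_nonneg _)
          _ = f * H := Real.mul_self_sqrt (by positivity)
      rw [mul_assoc]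
      exact mul_le_mul_of_nonneg_left h4 (by positivity)
    have h5 := abs_le.1 (h2.trans h3)
    have h6 := abs_le.1 h1
    rw [abs_le]
    constructor <;> linarith [h5.1, h5.2, h6.1, h6.2]
  -- no solution
  have hzero : S0 H Y w (fun i => α i) (fun j => α j) = 0 := by
    unfold S0
    refine sum_eq_zero fun y hy => sum_eq_zero fun i _ => sum_eq_zero fun j _ => ?_
    by_cases h1 : (i : ℤ) + j = w y
    · rcases (hα i).1.lt_or_eq with h2 | h2
      · rcases (hα j).1.lt_or_eq with h3 | h3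
        · exact absurd h1 (hno y (mem_range.1 hy) i j h2 h3)
        · simp only [← h3]; ring
      · simp only [← h2]; ring
    · rw [if_neg h1, mul_zero]
  have hdec : S0 H Y w (fun i => α i) (fun j => α j) = S0 H Y w (fun _ => f) (fun _ => f) +
      S0 H Y w (fun _ => f) (fun j => g j) + S0 H Y w (fun i => α i) (fun j => g j) := by
    have h1 : S0 H Y w (fun i => α i) (fun j => α j) =
        S0 H Y w (fun i => α i) (fun j => f + g j) := by
      refine S0_congr fun j hj => ?_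
      rw [hgH j hj]; ring
    rw [h1, S0_add, S0_comm H Y w (fun i => α i) (fun _ => f)]
    have h2 : S0 H Y w (fun _ => f) (fun i => α i) =
        S0 H Y w (fun _ => f) (fun j => f + g j) := by
      refine S0_congr fun j hj => ?_
      rw [hgH j hj]; ring
    rw [h2, S0_add]
  have b1 := hbal (fun _ => f) (fun i _ => by rw [abs_of_pos hf]; exact hf1) hf2
  have b2 := hbal (fun i => α i) (fun i _ => by rw [abs_of_nonneg (hα i).1]; exact (hα i).2) hα2
  have b3 := S0_const (f := f) hw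
  rw [hzero] at hdec
  have b1' := (abs_le.1 b1).1
  have b2' := (abs_le.1 b2).1
  have hfin : f ^ 2 * (Y * (H / 4)) ≤ 2 * (Y * (4 * f * (η * H)) + 2 * ε * Y * (f * H)) := by linarith
  have hpos : 0 < f * (Y * H) := by positivity
  have : f * (Y * H) * (f / 4) ≤ f * (Y * H) * (8 * η + 4 * ε) := by
    calc f * (Y * H) * (f / 4) = f ^ 2 * (Y * (H / 4)) := by ring
      _ ≤ _ := hfin
      _ = f * (Y * H) * (8 * η + 4 * ε) := by ring
  have := le_of_mul_le_mul_left this hpos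
  linarith

end Pool.Agent.R781.WR
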