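import Pool.Agent.R781.WR.Core

/-!
# The core inequality for two functions
-/

set_option autoImplicit false

namespace Pool.Agent.R781.WR

open Finset
open Pool.Agent.Helper602.MK (ee)

/-- The hypotheses on one of the two functions. -/
structure Fn (H L ρ : ℕ) (η f : ℝ) (α : ℤ → ℝ) : Prop where
  pos : 0 < f
  rng : ∀ v, 0 ≤ α v ∧ α v ≤ 1
  supp : ∀ v, v < 0 ∨ (H : ℤ) ≤ v → α v = 0
  sum : ∑ j ∈ range H, α j = f * H
  max : ∀ v : ℤ, ∑ l ∈ range L, α (v + ρ * l) ≤ (1 + η) * f * L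

lemma Fn.le_one {H L ρ : ℕ} {η f : ℝ} {α : ℤ → ℝ} (h : Fn H L ρ η f α) (hH : 1 ≤ H) : f ≤ 1 := by
  have hH0 : (0 : ℝ) < H := by exact_mod_cast hH
  have h1 : ∑ j ∈ range H, α j ≤ ∑ j ∈ range H, (1 : ℝ) := sum_le_sum fun j _ => (h.rng j).2
  rw [h.sum, sum_const, card_range, nsmul_eq_mul, mul_one] at h1
  nlinarith

lemma Fn.sq {H L ρ : ℕ} {η f : ℝ} {α : ℤ → ℝ} (h : Fn H L ρ η f α) (hH : 1 ≤ H) :
    ∑ i ∈ range H, (α i) ^ 2 ≤ H := by
  have h1 : ∑ i ∈ range H, (α i) ^ 2 ≤ ∑ i ∈ range H, (1 : ℝ) := sum_le_sum fun j _ => by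
    have := h.rng j
    nlinarith [this.1, this.2]
  simpa using h1

/-- the balanced function pairs to something small -/
lemma balanced (hF : SFourier) {H Y L ρ : ℕ} {w : ℕ → ℤ} {α : ℤ → ℝ} {f η ε : ℝ}
    (hH : 1 ≤ H) (hY : 1 ≤ Y) (hL : 1 ≤ L) (hη : 0 ≤ η) (hη1 : η ≤ 1) (hε : 0 ≤ ε)
    (hα : Fn H L ρ η f α) (hρL : 4 * (ρ : ℝ) * L ≤ η * H)
    (hW : ∀ β : ℝ, ‖∑ y ∈ range Y, ee (β * w y)‖ * ‖om L ρ β‖ ≤ 2 * ε * Y)
    (g : ℤ → ℝ) (hg : g = fun v => α v - if 0 ≤ v ∧ v < H then f else 0)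
    (h : ℕ → ℝ) (hh : ∀ i < H, |h i| ≤ 1) :
    |S0 H Y w h (fun j => g j)| ≤ Y * H * (4 * η + 2 * ε) := by
  have hH0 : (0 : ℝ) < H := by exact_mod_cast hH
  have hY0 : (0 : ℝ) < Y := by exact_mod_cast hY
  have hf := hα.pos
  have hf1 := hα.le_one hH
  have hh2 : ∑ i ∈ range H, (h i) ^ 2 ≤ H := by
    have h1 : ∑ i ∈ range H, (h i) ^ 2 ≤ ∑ i ∈ range H, (1 : ℝ) := sum_le_sum fun j hj => by
      have := hh j (mem_range.1 hj)
      rw [← sq_abs]
      nlinarith [abs_nonneg (h j)]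
    simpa using h1
  have hg2 : ∑ i ∈ range H, (g i) ^ 2 ≤ H := by
    have h1 : ∑ i ∈ range H, (g i) ^ 2 ≤ ∑ i ∈ range H, (1 : ℝ) := sum_le_sum fun j hj => by
      have h2 := hα.rng j
      have h3 : g (j : ℤ) = α j - f := by
        rw [hg]
        simp only
        have := mem_range.1 hj
        rw [if_pos ⟨by omega, by omega⟩]
      rw [h3]
      nlinarith [h2.1, h2.2]
    simpa using h1
  have h1 := S1_bound (Y := Y) (w := w) hL hf hη hη1 hα.supp hα.sum hα.max hρL h hh g hg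
  have h2 := four_apply (H := H) hF (h := h) (g := fun j => g j) hL (by positivity) hW
  have h3 : 2 * ε * Y * Real.sqrt (∑ i ∈ range H, h i ^ 2) * Real.sqrt (∑ j ∈ range H, (g j) ^ 2) ≤
      2 * ε * Y * H := by
    have h4 : Real.sqrt (∑ i ∈ range H, h i ^ 2) * Real.sqrt (∑ j ∈ range H, (g j) ^ 2) ≤ H := by
      calc Real.sqrt (∑ i ∈ range H, h i ^ 2) * Real.sqrt (∑ j ∈ range H, (g j) ^ 2)
          ≤ Real.sqrt H * Real.sqrt H :=
            mul_le_mul (Real.sqrt_le_sqrt hh2) (Real.sqrt_le_sqrt hg2) (Real.sqrt_nonneg _)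
              (Real.sqrt_nonneg _)
        _ = H := Real.mul_self_sqrt hH0.le
    rw [mul_assoc]
    exact mul_le_mul_of_nonneg_left h4 (by positivity)
  have h7 : (Y : ℝ) * (4 * f * (η * H)) ≤ Y * (4 * (η * H)) := by
    apply mul_le_mul_of_nonneg_left _ hY0.le
    have : 0 ≤ η * H := by positivity
    nlinarith
  have h5 := abs_le.1 (h2.trans h3)
  have h6 := abs_le.1 (h1.trans h7)
  have h8 : Y * H * (4 * η + 2 * ε) = Y * (4 * (η * H)) + 2 * ε * Y * H := by ring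
  rw [h8, abs_le]
  constructor <;> linarith [h5.1, h5.2, h6.1, h6.2]

/-- the main term -/
lemma S0_const2 {H Y : ℕ} {w : ℕ → ℤ} {f f' : ℝ} (hf : 0 ≤ f) (hf' : 0 ≤ f')
    (hw : ∀ y < Y, (H : ℤ) ≤ 4 * w y ∧ w y < H) :
    f * f' * (Y * (H / 4)) ≤ S0 H Y w (fun _ => f) (fun _ => f') := by
  have h1 := S0_const (f := 1) hw
  have h2 : S0 H Y w (fun _ => f) (fun _ => f') = f * f' * S0 H Y w (fun _ => 1) (fun _ => 1) := by
    unfold S0
    rw [mul_sum]
    refine sum_congr rfl fun y _ => ?_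
    rw [mul_sum]
    refine sum_congr rfl fun i _ => ?_
    rw [mul_sum]
    refine sum_congr rfl fun j _ => ?_
    ring
  rw [h2]
  rw [one_pow, one_mul] at h1
  exact mul_le_mul_of_nonneg_left h1 (by positivity)

theorem core2 (hF : SFourier) {H Y L ρ : ℕ} {w : ℕ → ℤ} {α β : ℤ → ℝ} {f f' η ε : ℝ}
    (hH : 1 ≤ H) (hY : 1 ≤ Y) (hL : 1 ≤ L) (hη : 0 ≤ η) (hε : 0 ≤ ε)
    (hα : Fn H L ρ η f α) (hβ : Fn H L ρ η f' β)
    (hρL : 4 * (ρ : ℝ) * L ≤ η * H)
    (hw : ∀ y < Y, (H : ℤ) ≤ 4 * w y ∧ w y < H)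
    (hW : ∀ β : ℝ, ‖∑ y ∈ range Y, ee (β * w y)‖ * ‖om L ρ β‖ ≤ 2 * ε * Y)
    (hηε : 8 * η + 4 * ε < f * f' / 4) :
    ∃ y < Y, ∃ i j : ℤ, 0 < α i ∧ 0 < β j ∧ i + j = w y := by
  by_contra hno
  push Not at hno
  have hH0 : (0 : ℝ) < H := by exact_mod_cast hH
  have hY0 : (0 : ℝ) < Y := by exact_mod_cast hY
  have hf := hα.pos
  have hf' := hβ.pos
  have hf1 := hα.le_one hH
  have hf1' := hβ.le_one hH
  have hff : f * f' ≤ 1 := by nlinarith
  have hη1 : η ≤ 1 := by linarith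
  set g : ℤ → ℝ := fun v => α v - if 0 ≤ v ∧ v < H then f else 0 with hg
  set g' : ℤ → ℝ := fun v => β v - if 0 ≤ v ∧ v < H then f' else 0 with hg'
  have hgH : ∀ j < H, g (j : ℤ) = α j - f := by
    intro j hj
    rw [hg]
    simp only
    rw [if_pos ⟨by omega, by omega⟩]
  have hgH' : ∀ j < H, g' (j : ℤ) = β j - f' := by
    intro j hj
    rw [hg']
    simp only
    rw [if_pos ⟨by omega, by omega⟩]
  have b1 := balanced hF hH hY hL hη hη1 hε hα hρL hW g hg (fun _ => f')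
    (fun i _ => by rw [abs_of_pos hf']; exact hf1')
  have b2 := balanced hF hH hY hL hη hη1 hε hβ hρL hW g' hg' (fun i => α i)
    (fun i _ => by rw [abs_of_nonneg (hα.rng i).1]; exact (hα.rng i).2)
  have b3 := S0_const2 hf.le hf'.le hw
  have hzero : S0 H Y w (fun i => α i) (fun j => β j) = 0 := by
    unfold S0
    refine sum_eq_zero fun y hy => sum_eq_zero fun i _ => sum_eq_zero fun j _ => ?_
    by_cases h1 : (i : ℤ) + j = w y
    · rcases (hα.rng i).1.lt_or_eq with h2 | h2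
      · rcases (hβ.rng j).1.lt_or_eq with h3 | h3
        · exact absurd h1 (hno y (mem_range.1 hy) i j h2 h3)
        · simp only [← h3]; ring
      · simp only [← h2]; ring
    · rw [if_neg h1, mul_zero]
  have hdec : S0 H Y w (fun i => α i) (fun j => β j) = S0 H Y w (fun _ => f) (fun _ => f') +
      S0 H Y w (fun _ => f') (fun j => g j) + S0 H Y w (fun i => α i) (fun j => g' j) := by
    have h1 : S0 H Y w (fun i => α i) (fun j => β j) =
        S0 H Y w (fun i => α i) (fun j => f' + g' j) := by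
      refine S0_congr fun j hj => ?_
      rw [hgH' j hj]; ring
    rw [h1, S0_add, S0_comm H Y w (fun i => α i) (fun _ => f')]
    have h2 : S0 H Y w (fun _ => f') (fun i => α i) =
        S0 H Y w (fun _ => f') (fun j => f + g j) := by
      refine S0_congr fun j hj => ?_
      rw [hgH j hj]; ring
    rw [h2, S0_add, S0_comm H Y w (fun _ => f) (fun _ => f')]
  rw [hzero] at hdec
  have b1' := (abs_le.1 b1).1
  have b2' := (abs_le.1 b2).1
  have hpos : 0 < (Y : ℝ) * H := by positivity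
  have h9 : (Y * H : ℝ) * (f * f' / 4) ≤ Y * H * (8 * η + 4 * ε) := by
    calc (Y * H : ℝ) * (f * f' / 4) = f * f' * (Y * (H / 4)) := by ring
      _ ≤ 2 * (Y * H * (4 * η + 2 * ε)) := by linarith
      _ = Y * H * (8 * η + 4 * ε) := by ring
  have := le_of_mul_le_mul_left h9 hpos
  linarith

end Pool.Agent.R781.WR
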