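import Pool.Agent.R781.WR.Cor
import Pool.Agent.R500.WB.Lower

/-!
# Dense sets and `k`-th powers: final forms
-/

set_option autoImplicit false

namespace Pool.Agent.R781.WR

open Finset Filter
open Pool.Agent.R500.WB (Loc)

def PosDens (A : Set ℕ) : Prop :=
  ∃ δ : ℝ, 0 < δ ∧ ∀ᶠ N : ℕ in atTop, δ * N ≤ ((A ∩ Set.Iio N).ncard : ℝ)

/-- `n` is a sum of `t` terms `x ^ k`, `x ≥ 1`, all of which but the first have `x ≤ C` -/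
def KSum (k t C n : ℕ) : Prop :=
  ∃ x : Fin t → ℕ, (∀ i, 1 ≤ x i) ∧ (∀ i, i.val ≠ 0 → x i ≤ C) ∧ ∑ i, x i ^ k = n

lemma ksum_of {k s C x : ℕ} (hx : 1 ≤ x) {c : Fin s → ℕ} (hc : ∀ i, 1 ≤ c i ∧ c i ≤ C) :
    KSum k (s + 1) C (x ^ k + ∑ i, c i ^ k) := by
  refine ⟨Fin.cons x c, ?_, ?_, ?_⟩
  · intro i
    refine Fin.cases ?_ (fun j => ?_) i
    · simpa using hx
    · simpa using (hc j).1
  · intro i
    refine Fin.cases ?_ (fun j => ?_) i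
    · intro h
      exact absurd rfl h
    · intro _
      simpa using (hc j).2
  · rw [Fin.sum_univ_succ]
    simp

/-- the uniform two-set theorem -/
theorem form_uniform {k t : ℕ} (hk : 1 ≤ k) (ht : 1 ≤ t) (hloc : ∀ q, 1 ≤ q → Loc k t q)
    {δ : ℝ} (hδ : 0 < δ) :
    ∃ C : ℕ, ∀ᶠ n : ℕ in atTop, ∀ A B : Set ℕ, δ * n ≤ ((A ∩ {a | 4 * a < n}).ncard : ℝ) →
      δ * n ≤ ((B ∩ {b | 4 * b < n}).ncard : ℝ) →
      ∃ a ∈ A, ∃ b ∈ B, ∃ m, KSum k t C m ∧ a + b + m = n := by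
  obtain ⟨s, rfl⟩ := Nat.exists_eq_add_of_le' ht
  obtain ⟨C, hC⟩ := main2 k s hk hloc δ hδ
  refine ⟨C, ?_⟩
  filter_upwards [hC] with n hn A B hA hB
  obtain ⟨a, ha, b, hb, x, hx, c, hc, h⟩ := hn A B hA hB
  exact ⟨a, ha, b, hb, _, ksum_of hx hc, by omega⟩

/-- the two-set theorem -/
theorem form_two {k t : ℕ} (hk : 1 ≤ k) (ht : 1 ≤ t) (hloc : ∀ q, 1 ≤ q → Loc k t q)
    {A B : Set ℕ} (hA : PosDens A) (hB : PosDens B) :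
    ∃ C : ℕ, ∀ᶠ n : ℕ in atTop, ∃ a ∈ A, ∃ b ∈ B, ∃ m, KSum k t C m ∧ a + b + m = n := by
  obtain ⟨s, rfl⟩ := Nat.exists_eq_add_of_le' ht
  obtain ⟨C, hC⟩ := both hk hloc hA hB
  refine ⟨C, ?_⟩
  filter_upwards [hC] with n hn
  obtain ⟨a, ha, b, hb, x, hx, c, hc, h⟩ := hn
  exact ⟨a, ha, b, hb, _, ksum_of hx hc, by omega⟩

/-- the one-set theorem -/
theorem form_one {k t : ℕ} (hk : 1 ≤ k) (ht : 1 ≤ t) (hloc : ∀ q, 1 ≤ q → Loc k t q)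
    {A : Set ℕ} (hA : PosDens A) {ε : ℝ} (hε : 0 < ε) :
    ∃ C : ℕ, ∀ᶠ N : ℕ in atTop, (1 - ε) * N ≤
      (({n | ∃ a ∈ A, ∃ m, KSum k t C m ∧ a + m = n} ∩ Set.Iio N : Set ℕ).ncard : ℝ) := by
  obtain ⟨s, rfl⟩ := Nat.exists_eq_add_of_le' ht
  obtain ⟨C, hC⟩ := almost hk hloc hA hε
  refine ⟨C, ?_⟩
  filter_upwards [hC] with N hN
  refine hN.trans ?_
  have h1 : Sums k s C A ∩ Set.Iio N ⊆ {n | ∃ a ∈ A, ∃ m, KSum k (s + 1) C m ∧ a + m = n} ∩ Set.Iio N := by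
    rintro n ⟨⟨a, ha, x, hx, c, hc, h⟩, hn⟩
    exact ⟨⟨a, ha, _, ksum_of hx hc, by omega⟩, hn⟩
  exact_mod_cast Set.ncard_le_ncard h1 ((Set.finite_Iio N).subset Set.inter_subset_right)

/-- the local condition is necessary -/
theorem local_of {k t : ℕ} (h : ∀ A : Set ℕ, PosDens A → ∀ᶠ n : ℕ in atTop,
      ∃ a ∈ A, ∃ b ∈ A, ∃ x : Fin t → ℕ, a + b + ∑ i, x i ^ k = n) {q : ℕ} (hq : 1 ≤ q) : Loc k t q := by
  intro r
  obtain ⟨N, hN⟩ := eventually_atTop.1 (h {a | q ∣ a} (mult_dens hq))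
  obtain ⟨a, ha, b, hb, x, hx⟩ := hN (r + q * N) (by nlinarith)
  refine ⟨x, ?_⟩
  have h1 : r ≡ r + q * N [MOD q] := by
    unfold Nat.ModEq
    rw [Nat.add_mul_mod_self_left]
  have h2 : ∑ i, x i ^ k ≡ a + b + ∑ i, x i ^ k [MOD q] := by
    obtain ⟨c, rfl⟩ := ha
    obtain ⟨d, rfl⟩ := hb
    unfold Nat.ModEq
    rw [← mul_add, Nat.mul_add_mod]
  exact (h2.trans (by rw [hx])).trans h1.symm

/-- `4 k` powers are necessary for `k = 2 ^ m`, `m ≥ 3` -/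
theorem not_suff {k t m : ℕ} (hm : 3 ≤ m) (hk : k = 2 ^ m) (ht : t < 4 * k) :
    ¬ ∀ A : Set ℕ, PosDens A → ∀ᶠ n : ℕ in atTop,
      ∃ a ∈ A, ∃ b ∈ A, ∃ x : Fin t → ℕ, a + b + ∑ i, x i ^ k = n := by
  intro h
  have hk0 : 0 < k := by rw [hk]; positivity
  obtain ⟨ρ, hρ⟩ := local_of h (q := 8 * k) (by omega) (4 * k)
  refine Pool.Agent.R500.WB.obstruction hm hk (q := 8 * k) (dvd_refl _) (b := fun x => x ^ k)
    (fun x => ⟨0, by simp⟩) (n := ∑ i, ρ i ^ k) ?_ ht ρ rfl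
  unfold Nat.ModEq at hρ
  rw [hρ, Nat.mod_eq_of_lt (by omega)]

end Pool.Agent.R781.WR
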