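import Pool.Agent.R781.WR.P_INCR

/-!
# The density increment for two sets
-/

set_option autoImplicit false

namespace Pool.Agent.R781.WR

open Finset

lemma pigeon (x y : ℕ → ℝ) {δ η : ℝ} {J : ℕ} (hx : ∀ j, 0 ≤ x j ∧ x j ≤ 1)
    (hy : ∀ j, 0 ≤ y j ∧ y j ≤ 1) (hδ : 0 < δ) (hη : 0 < η) (hη2 : η ≤ 2)
    (hJ : 1 < (1 + η / 2) ^ J * δ) (h0 : δ ≤ x 0 * y 0)
    (hxx : ∀ j < J, x j ≤ (1 + η / 4) * x (j + 1)) (hyy : ∀ j < J, y j ≤ (1 + η / 4) * y (j + 1)) :
    ∃ j < J, δ ≤ x j * y j ∧ x (j + 1) ≤ (1 + η) * x j ∧ y (j + 1) ≤ (1 + η) * y j := by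
  have aux : ∀ (x y x' y' : ℝ), 0 < x → 0 < y → 0 ≤ x' → 0 ≤ y' → y ≤ (1 + η / 4) * y' →
      x' * y' ≤ (1 + η / 2) * (x * y) → x' ≤ (1 + η) * x := by
    intro x y x' y' h1 h2 h3 h4 h5 h6
    have h7 : x' * y ≤ (1 + η) * x * y := by
      calc x' * y ≤ x' * ((1 + η / 4) * y') := mul_le_mul_of_nonneg_left h5 h3
        _ = (1 + η / 4) * (x' * y') := by ring
        _ ≤ (1 + η / 4) * ((1 + η / 2) * (x * y)) := mul_le_mul_of_nonneg_left h6 (by linarith)
        _ = ((1 + η / 4) * (1 + η / 2)) * (x * y) := by ring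
        _ ≤ (1 + η) * (x * y) := by
            apply mul_le_mul_of_nonneg_right _ (by positivity)
            nlinarith
        _ = (1 + η) * x * y := by ring
    exact le_of_mul_le_mul_right h7 h2
  by_contra hcon
  push Not at hcon
  have key : ∀ j ≤ J, (1 + η / 2) ^ j * δ ≤ x j * y j := by
    intro j
    induction j with
    | zero => intro _; simpa using h0
    | succ j ih =>
      intro hj
      have h1 := ih (by omega)
      have h2 : (1 : ℝ) ≤ (1 + η / 2) ^ j := one_le_pow₀ (by linarith)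
      have h3 : δ ≤ x j * y j := le_trans (by nlinarith) h1
      by_contra h4
      push Not at h4
      have h5 : x (j + 1) * y (j + 1) ≤ (1 + η / 2) * (x j * y j) := by
        refine h4.le.trans ?_
        calc (1 + η / 2) ^ (j + 1) * δ = (1 + η / 2) * ((1 + η / 2) ^ j * δ) := by ring
          _ ≤ _ := mul_le_mul_of_nonneg_left h1 (by linarith)
      have h6 : 0 < x j * y j := by linarith
      have h7 : 0 < x j := by
        rcases (hx j).1.lt_or_eq with h | h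
        · exact h
        · rw [← h, zero_mul] at h6
          exact absurd h6 (lt_irrefl _)
      have h8 : 0 < y j := by
        rcases (hy j).1.lt_or_eq with h | h
        · exact h
        · rw [← h, mul_zero] at h6
          exact absurd h6 (lt_irrefl _)
      have h9 := aux _ _ _ _ h7 h8 (hx (j + 1)).1 (hy (j + 1)).1 (hyy j (by omega)) h5
      have h10 := aux _ _ _ _ h8 h7 (hy (j + 1)).1 (hx (j + 1)).1 (hxx j (by omega))
        (by rw [mul_comm (y (j + 1)), mul_comm (y j)]; exact h5)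
      exact absurd h10 (not_le.2 (hcon j (by omega) h3 h9))
  have h1 := key J le_rfl
  have h2 : x J * y J ≤ 1 := by nlinarith [(hx J).1, (hx J).2, (hy J).1, (hy J).2]
  linarith

lemma exists_max (A : Set ℤ) (q H : ℕ) : ∃ u, ∀ u', cnt A u' q H ≤ cnt A u q H := by
  obtain ⟨m, ⟨u, hu⟩, hm⟩ := (Set.Finite.subset (Set.finite_Iic H) (by
    rintro m ⟨u, rfl⟩
    exact incr_cnt_le A u q H : Set.range (fun u => cnt A u q H) ⊆ Set.Iic H)).exists_maximal
      ⟨_, 0, rfl⟩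
  refine ⟨u, fun u' => ?_⟩
  simp only at hu
  rw [hu]
  by_contra hcon
  push Not at hcon
  have := hm ⟨u', rfl⟩ hcon.le
  simp only at this
  omega

/-- the maximal density hardly decreases -/
lemma averaging (A : Set ℤ) (u : ℤ) (q H ρ L M : ℕ)
    (hM : ∀ u', cnt A u' (q * ρ) L ≤ M) : L * cnt A u q H ≤ (H + ρ * L) * M := by
  classical
  set α : ℤ → ℕ := fun v => if 0 ≤ v ∧ v < (H : ℤ) ∧ u + (q : ℤ) * v ∈ A then 1 else 0 with hα
  have h1 : cnt A u q H = ∑ i ∈ range H, α i := by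
    unfold cnt
    rw [card_filter]
    refine sum_congr rfl fun i hi => ?_
    have hi' := mem_range.1 hi
    simp only [hα]
    by_cases h5 : u + (q : ℤ) * i ∈ A
    · rw [if_pos h5, if_pos ⟨by omega, by omega, h5⟩]
    · rw [if_neg h5, if_neg (fun h6 => h5 h6.2.2)]
  have h2 : ∀ l ∈ range L, ∑ i ∈ range H, α i ≤ ∑ v ∈ Ico (-(ρ * L : ℤ)) H, α (v + ρ * l) := by
    intro l hl
    have hl' : (l : ℤ) < L := by exact_mod_cast mem_range.1 hl
    have h3 : (ρ : ℤ) * l ≤ ρ * L := by gcongr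
    have h4 : (0 : ℤ) ≤ ρ * l := by positivity
    have h5 : ∑ i ∈ range H, α i =
        ∑ v ∈ (range H).image (fun i : ℕ => (i : ℤ) - ρ * l), α (v + ρ * l) := by
      rw [sum_image]
      · refine sum_congr rfl fun i _ => ?_
        congr 1
        ring
      · intro a _ b _ hab
        have : (a : ℤ) - ρ * l = (b : ℤ) - ρ * l := hab
        omega
    rw [h5]
    refine sum_le_sum_of_subset fun v hv => ?_
    obtain ⟨i, hi, rfl⟩ := mem_image.1 hv
    have := mem_range.1 hi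
    rw [mem_Ico]
    omega
  have h6 : ∀ v : ℤ, ∑ l ∈ range L, α (v + ρ * l) ≤ M := by
    intro v
    refine le_trans ?_ (hM (u + q * v))
    unfold cnt
    rw [card_filter]
    refine sum_le_sum fun l _ => ?_
    simp only [hα]
    by_cases h5 : u + (q : ℤ) * (v + ρ * l) ∈ A
    · have h6 : u + (q : ℤ) * v + ((q * ρ : ℕ) : ℤ) * l ∈ A := by
        convert h5 using 1
        push_cast
        ring
      rw [if_pos h6]
      split_ifs <;> norm_num
    · rw [if_neg (fun h7 => h5 h7.2.2)]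
      exact Nat.zero_le _
  calc L * cnt A u q H = ∑ l ∈ range L, ∑ i ∈ range H, α i := by
        rw [sum_const, card_range, h1, smul_eq_mul]
    _ ≤ ∑ l ∈ range L, ∑ v ∈ Ico (-(ρ * L : ℤ)) H, α (v + ρ * l) := sum_le_sum h2
    _ = ∑ v ∈ Ico (-(ρ * L : ℤ)) H, ∑ l ∈ range L, α (v + ρ * l) := sum_comm
    _ ≤ ∑ v ∈ Ico (-(ρ * L : ℤ)) H, M := sum_le_sum fun v _ => h6 v
    _ = (H + ρ * L) * M := by
        rw [sum_const, smul_eq_mul, Int.card_Ico]
        congr 1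
        have : (H : ℤ) - -(ρ * L : ℤ) = ((H + ρ * L : ℕ) : ℤ) := by push_cast; ring
        rw [this, Int.toNat_natCast]

theorem incr2 (A B : Set ℤ) (q H ρ : ℕ → ℕ) {δ η : ℝ} {J : ℕ} (hδ : 0 < δ) (hη : 0 < η)
    (hη2 : η ≤ 2) (hJ : 1 < (1 + η / 2) ^ J * δ) (hH : ∀ j ≤ J, 1 ≤ H j)
    (hq : ∀ j < J, q (j + 1) = q j * ρ j)
    (hρ : ∀ j < J, 4 * (ρ j : ℝ) * H (j + 1) ≤ η * H j)
    (h0 : ∃ u v, δ * (H 0 * H 0) ≤ (cnt A u (q 0) (H 0) : ℝ) * cnt B v (q 0) (H 0)) :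
    ∃ j < J, ∃ u v : ℤ, δ * (H j * H j) ≤ (cnt A u (q j) (H j) : ℝ) * cnt B v (q j) (H j) ∧
      (∀ u' : ℤ, (cnt A u' (q (j + 1)) (H (j + 1)) : ℝ) * H j ≤
        (1 + η) * cnt A u (q j) (H j) * H (j + 1)) ∧
      (∀ v' : ℤ, (cnt B v' (q (j + 1)) (H (j + 1)) : ℝ) * H j ≤
        (1 + η) * cnt B v (q j) (H j) * H (j + 1)) := by
  choose ua hua using fun j => exists_max A (q j) (H j)
  choose ub hub using fun j => exists_max B (q j) (H j)
  set x : ℕ → ℝ := fun j => (cnt A (ua j) (q j) (H j) : ℝ) / H j with hx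
  set y : ℕ → ℝ := fun j => (cnt B (ub j) (q j) (H j) : ℝ) / H j with hy
  have hbd : ∀ (A : Set ℤ) (u : ℤ) (q H : ℕ), 0 ≤ (cnt A u q H : ℝ) / H ∧ (cnt A u q H : ℝ) / H ≤ 1 := by
    intro A u q H
    refine ⟨by positivity, ?_⟩
    have h1 : (cnt A u q H : ℝ) ≤ H := by exact_mod_cast incr_cnt_le A u q H
    exact div_le_one_of_le₀ h1 (Nat.cast_nonneg _)
  have hpos : ∀ j ≤ J, (0 : ℝ) < H j := fun j hj => by exact_mod_cast hH j hj
  have hav : ∀ (A : Set ℤ) (u : ℕ → ℤ), (∀ j u', cnt A u' (q j) (H j) ≤ cnt A (u j) (q j) (H j)) →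
      ∀ j < J, (cnt A (u j) (q j) (H j) : ℝ) / H j ≤
        (1 + η / 4) * ((cnt A (u (j + 1)) (q (j + 1)) (H (j + 1)) : ℝ) / H (j + 1)) := by
    intro A u hu j hj
    have h1 := averaging A (u j) (q j) (H j) (ρ j) (H (j + 1))
      (cnt A (u (j + 1)) (q (j + 1)) (H (j + 1))) (by rw [← hq j hj]; exact hu (j + 1))
    have h2 : (H (j + 1) : ℝ) * cnt A (u j) (q j) (H j) ≤
        (H j + ρ j * H (j + 1)) * cnt A (u (j + 1)) (q (j + 1)) (H (j + 1)) := by exact_mod_cast h1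
    have h3 := hρ j hj
    have h4 := hpos j hj.le
    have h5 := hpos (j + 1) (by omega)
    set c1 : ℝ := (cnt A (u j) (q j) (H j) : ℝ)
    set c2 : ℝ := (cnt A (u (j + 1)) (q (j + 1)) (H (j + 1)) : ℝ)
    have hc2 : 0 ≤ c2 := Nat.cast_nonneg _
    rw [div_le_iff₀ h4]
    have h6 : (H (j + 1) : ℝ) * c1 ≤ ((1 + η / 4) * H j) * c2 := by
      refine h2.trans (mul_le_mul_of_nonneg_right ?_ hc2)
      linarith
    have h7 : (1 + η / 4) * (c2 / H (j + 1)) * H j = ((1 + η / 4) * H j) * c2 / H (j + 1) := by ring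
    rw [h7, le_div_iff₀ h5]
    linarith
  obtain ⟨j, hj, h1, h2, h3⟩ := pigeon x y (fun j => hbd A _ _ _) (fun j => hbd B _ _ _) hδ hη hη2 hJ
    (by
      obtain ⟨u, v, huv⟩ := h0
      have h4 := hpos 0 (Nat.zero_le _)
      have h5 : (cnt A u (q 0) (H 0) : ℝ) ≤ cnt A (ua 0) (q 0) (H 0) := by exact_mod_cast hua 0 u
      have h6 : (cnt B v (q 0) (H 0) : ℝ) ≤ cnt B (ub 0) (q 0) (H 0) := by exact_mod_cast hub 0 v
      simp only [hx, hy]
      rw [div_mul_div_comm, le_div_iff₀ (by positivity)]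
      exact huv.trans (mul_le_mul h5 h6 (Nat.cast_nonneg _) (Nat.cast_nonneg _)))
    (hav A ua hua) (hav B ub hub)
  have h4 := hpos j hj.le
  have h5 := hpos (j + 1) (by omega)
  refine ⟨j, hj, ua j, ub j, ?_, ?_, ?_⟩
  · simp only [hx, hy] at h1
    rw [div_mul_div_comm, le_div_iff₀ (by positivity)] at h1
    exact h1
  · intro u'
    have h6 : (cnt A u' (q (j + 1)) (H (j + 1)) : ℝ) ≤ cnt A (ua (j + 1)) (q (j + 1)) (H (j + 1)) := by
      exact_mod_cast hua (j + 1) u'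
    simp only [hx] at h2
    rw [div_le_iff₀ h5] at h2
    calc (cnt A u' (q (j + 1)) (H (j + 1)) : ℝ) * H j
        ≤ ((1 + η) * ((cnt A (ua j) (q j) (H j) : ℝ) / H j) * H (j + 1)) * H j :=
          mul_le_mul_of_nonneg_right (h6.trans h2) h4.le
      _ = (1 + η) * cnt A (ua j) (q j) (H j) * H (j + 1) := by field_simp
  · intro u'
    have h6 : (cnt B u' (q (j + 1)) (H (j + 1)) : ℝ) ≤ cnt B (ub (j + 1)) (q (j + 1)) (H (j + 1)) := by
      exact_mod_cast hub (j + 1) u'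
    simp only [hy] at h3
    rw [div_le_iff₀ h5] at h3
    calc (cnt B u' (q (j + 1)) (H (j + 1)) : ℝ) * H j
        ≤ ((1 + η) * ((cnt B (ub j) (q j) (H j) : ℝ) / H j) * H (j + 1)) * H j :=
          mul_le_mul_of_nonneg_right (h6.trans h3) h4.le
      _ = (1 + η) * cnt B (ub j) (q j) (H j) * H (j + 1) := by field_simp

end Pool.Agent.R781.WR
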