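import Pool.Agent.R781.WR.Stm

/-!
# Piece FOU: the Fourier lemma
-/

set_option autoImplicit false

namespace Pool.Agent.R781.WR

open Finset
open Pool.Agent.Helper602.MK (ee)
open Pool.Agent.Helper602.MK.N_J5b (ee_add ee_zero ee_conj norm_ee ee_int ee_nat_mul
  ee_eq_one_iff normsq_sum)

namespace FOU

theorem orth (M : ℕ) (hM : 0 < M) (t : ℤ) (ht : |t| < M) :
    ∑ ξ ∈ range M, ee ((ξ : ℝ) / M * t) = if t = 0 then (M : ℂ) else 0 := by
  have hM' : (M : ℝ) ≠ 0 := by positivity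
  have e : ∀ ξ : ℕ, ee ((ξ : ℝ) / M * t) = ee ((t : ℝ) / M) ^ ξ := by
    intro ξ
    rw [← ee_nat_mul]
    congr 1
    ring
  simp only [e]
  split_ifs with h
  · subst h
    simp [ee_zero]
  · have e1 : ee ((t : ℝ) / M) ≠ 1 := by
      intro h1
      rw [ee_eq_one_iff] at h1
      obtain ⟨n, hn⟩ := h1
      rw [div_eq_iff hM'] at hn
      have h2 : t = n * M := by exact_mod_cast hn
      rcases eq_or_ne n 0 with rfl | hn0
      · exact h (by rw [h2, zero_mul])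
      · have h3 : (M : ℤ) ≤ |t| := by
          rw [h2, abs_mul, Nat.abs_cast]
          have := Int.one_le_abs hn0
          have hM0 : (0 : ℤ) ≤ M := Int.natCast_nonneg M
          nlinarith
        omega
    have e2 : ee ((t : ℝ) / M) ^ M = 1 := by
      rw [← ee_nat_mul, mul_div_cancel₀ _ hM', ee_int]
    rw [geom_sum_eq e1, e2, sub_self, zero_div]

/-- discrete transform -/
noncomputable def hat (M H : ℕ) (h : ℕ → ℝ) (ξ : ℕ) : ℂ :=
  ∑ i ∈ range H, (h i : ℂ) * ee ((ξ : ℝ) / M * i)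

theorem parseval (M H : ℕ) (hM : 0 < M) (hH : H ≤ M) (h : ℕ → ℝ) :
    ∑ ξ ∈ range M, ‖hat M H h ξ‖ ^ 2 = M * ∑ i ∈ range H, h i ^ 2 := by
  have key : ((∑ ξ ∈ range M, ‖hat M H h ξ‖ ^ 2 : ℝ) : ℂ) =
      ((M * ∑ i ∈ range H, h i ^ 2 : ℝ) : ℂ) := by
    rw [Complex.ofReal_sum]
    have h1 : ∀ ξ : ℕ, ((‖hat M H h ξ‖ ^ 2 : ℝ) : ℂ) = ∑ i ∈ range H, ∑ j ∈ range H,
        ((h i : ℂ) * h j) * ee ((ξ : ℝ) / M * ((i - j : ℤ) : ℝ)) := by
      intro ξ
      rw [hat, normsq_sum]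
      apply sum_congr rfl
      intro i _
      apply sum_congr rfl
      intro j _
      rw [map_mul, Complex.conj_ofReal, ee_conj,
        show (ξ : ℝ) / M * ((i - j : ℤ) : ℝ) = (ξ : ℝ) / M * i + -((ξ : ℝ) / M * j) by
          push_cast; ring, ee_add]
      ring
    simp only [h1]
    rw [sum_comm]
    have h2 : ∀ i ∈ range H, ∑ ξ ∈ range M, ∑ j ∈ range H,
        ((h i : ℂ) * h j) * ee ((ξ : ℝ) / M * ((i - j : ℤ) : ℝ)) = M * (h i : ℂ) ^ 2 := by
      intro i hi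
      rw [sum_comm]
      have h3 : ∀ j ∈ range H, ∑ ξ ∈ range M,
          ((h i : ℂ) * h j) * ee ((ξ : ℝ) / M * ((i - j : ℤ) : ℝ)) =
            if i = j then M * (h i : ℂ) ^ 2 else 0 := by
        intro j hj
        rw [mem_range] at hi hj
        rw [← mul_sum, orth M hM (i - j : ℤ) (by rw [abs_lt]; omega)]
        by_cases hij : i = j
        · subst hij
          simp only [sub_self, if_true]
          ring
        · rw [if_neg (by omega), if_neg hij, mul_zero]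
      rw [sum_congr rfl h3, sum_ite_eq, if_pos hi]
    rw [sum_congr rfl h2, ← mul_sum]
    push_cast
    rfl
  exact_mod_cast key

theorem ite_c (c : Prop) [Decidable c] :
    (((if c then (1 : ℝ) else 0) : ℝ) : ℂ) = if c then (1 : ℂ) else 0 := by
  split_ifs <;> simp

theorem tri (Y H : ℕ) (a b c : ℕ → ℂ) (o : ℂ) :
    ∑ y ∈ range Y, ∑ i ∈ range H, ∑ j ∈ range H, a i * b j * (c y * o) =
      (∑ i ∈ range H, a i) * (∑ j ∈ range H, b j) * ((∑ y ∈ range Y, c y) * o) := by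
  simp only [← sum_mul, ← mul_sum]

theorem term (M H Y L ρ : ℕ) (w : ℕ → ℤ) (h g : ℕ → ℝ) (ξ : ℕ) :
    ∑ y ∈ range Y, ∑ i ∈ range H, ∑ j ∈ range H, ((h i : ℂ) * g j) *
      (ee ((ξ : ℝ) / M * ((i + j - w y : ℤ) : ℝ)) -
        (1 / (L : ℂ)) * ∑ l ∈ range L, ee ((ξ : ℝ) / M * ((i + j + ρ * l - w y : ℤ) : ℝ))) =
      hat M H h ξ * hat M H g ξ * ((∑ y ∈ range Y, ee (-((ξ : ℝ) / M * w y))) *
        om L ρ ((ξ : ℝ) / M)) := by
  rw [hat, hat, ← tri]
  apply sum_congr rfl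
  intro y _
  apply sum_congr rfl
  intro i _
  apply sum_congr rfl
  intro j _
  have e1 : ee ((ξ : ℝ) / M * ((i + j - w y : ℤ) : ℝ)) =
      ee ((ξ : ℝ) / M * i) * ee ((ξ : ℝ) / M * j) * ee (-((ξ : ℝ) / M * w y)) := by
    rw [← ee_add, ← ee_add]
    congr 1
    push_cast
    ring
  have e2 : ∀ l : ℕ, ee ((ξ : ℝ) / M * ((i + j + ρ * l - w y : ℤ) : ℝ)) =
      ee ((ξ : ℝ) / M * i) * ee ((ξ : ℝ) / M * j) * ee (-((ξ : ℝ) / M * w y)) *
        ee ((ξ : ℝ) / M * ((ρ : ℝ) * l)) := by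
    intro l
    rw [← ee_add, ← ee_add, ← ee_add]
    congr 1
    push_cast
    ring
  simp only [e1, e2]
  rw [← mul_sum, om]
  ring

end FOU

open FOU in
theorem t_FOU : SFourier := by
  intro H Y L ρ w h g B hL hB hW
  obtain ⟨M, hMdef⟩ : ∃ M : ℕ, M = 2 * H + ρ * L + ∑ y ∈ range Y, (w y).natAbs + 1 := ⟨_, rfl⟩
  have hM : 0 < M := by omega
  have hMR : (0 : ℝ) < M := by exact_mod_cast hM
  have hMC : (M : ℂ) ≠ 0 := by exact_mod_cast hM.ne'
  have hHM : H ≤ M := by omega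
  have hw : ∀ y ∈ range Y, (w y).natAbs ≤ ∑ y ∈ range Y, (w y).natAbs := fun y hy =>
    single_le_sum (f := fun y => (w y).natAbs) (fun _ _ => Nat.zero_le _) hy
  have hbd : ∀ y ∈ range Y, ∀ i ∈ range H, ∀ j ∈ range H, ∀ l : ℕ, l ≤ L →
      |(i + j + ρ * l - w y : ℤ)| < M := by
    intro y hy i hi j hj l hl
    rw [mem_range] at hi hj
    have h1 := hw y hy
    have h2 : ρ * l ≤ ρ * L := Nat.mul_le_mul_left ρ hl
    have h3 : (ρ : ℤ) * l ≤ (ρ : ℤ) * L := by exact_mod_cast h2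
    have h4 : (0 : ℤ) ≤ (ρ : ℤ) * l := by positivity
    have h5 : (M : ℤ) = 2 * H + ρ * L + (∑ y ∈ range Y, (w y).natAbs : ℕ) + 1 := by
      rw [hMdef]
      push_cast
      ring
    rw [abs_lt]
    omega
  obtain ⟨S, hS⟩ : ∃ S : ℝ, S = ∑ y ∈ range Y, ∑ i ∈ range H, ∑ j ∈ range H, h i * g j *
      ((if (i : ℤ) + j = w y then (1 : ℝ) else 0) -
        (1 / (L : ℝ)) * ∑ l ∈ range L, (if (i : ℤ) + j + ρ * l = w y then (1 : ℝ) else 0)) :=
    ⟨_, rfl⟩
  rw [← hS]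
  have key : (M : ℂ) * (S : ℂ) = ∑ ξ ∈ range M, hat M H h ξ * hat M H g ξ *
      ((∑ y ∈ range Y, ee (-((ξ : ℝ) / M * w y))) * om L ρ ((ξ : ℝ) / M)) := by
    simp only [← term]
    rw [sum_comm (s := range M) (t := range Y), hS, Complex.ofReal_sum, mul_sum]
    apply sum_congr rfl
    intro y hy
    rw [sum_comm (s := range M) (t := range H), Complex.ofReal_sum, mul_sum]
    apply sum_congr rfl
    intro i hi
    rw [sum_comm (s := range M) (t := range H), Complex.ofReal_sum, mul_sum]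
    apply sum_congr rfl
    intro j hj
    rw [← mul_sum, sum_sub_distrib, ← mul_sum, sum_comm (s := range M) (t := range L)]
    have e1 : ∑ ξ ∈ range M, ee ((ξ : ℝ) / M * ((i + j - w y : ℤ) : ℝ)) =
        M * (if (i : ℤ) + j = w y then (1 : ℂ) else 0) := by
      have hb := hbd y hy i hi j hj 0 (Nat.zero_le _)
      simp only [Nat.cast_zero, mul_zero, add_zero] at hb
      rw [orth M hM _ hb]
      by_cases hc : (i : ℤ) + j = w y
      · rw [if_pos hc, if_pos (by omega), mul_one]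
      · rw [if_neg hc, if_neg (by omega), mul_zero]
    have e2 : ∀ l ∈ range L, ∑ ξ ∈ range M,
        ee ((ξ : ℝ) / M * ((i + j + ρ * l - w y : ℤ) : ℝ)) =
        M * (if (i : ℤ) + j + ρ * l = w y then (1 : ℂ) else 0) := by
      intro l hl
      rw [mem_range] at hl
      rw [orth M hM _ (hbd y hy i hi j hj l hl.le)]
      by_cases hc : (i : ℤ) + j + ρ * l = w y
      · rw [if_pos hc, if_pos (by omega), mul_one]
      · rw [if_neg hc, if_neg (by omega), mul_zero]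
    rw [e1, sum_congr rfl e2, ← mul_sum]
    simp only [Complex.ofReal_mul, Complex.ofReal_sub, Complex.ofReal_sum, Complex.ofReal_div,
      Complex.ofReal_one, Complex.ofReal_natCast, ite_c]
    ring
  have h1 : (M : ℝ) * |S| = ‖∑ ξ ∈ range M, hat M H h ξ * hat M H g ξ *
      ((∑ y ∈ range Y, ee (-((ξ : ℝ) / M * w y))) * om L ρ ((ξ : ℝ) / M))‖ := by
    rw [← key, norm_mul, Complex.norm_natCast, Complex.norm_real, Real.norm_eq_abs]
  have h2 : ∀ ξ ∈ range M, ‖hat M H h ξ * hat M H g ξ *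
      ((∑ y ∈ range Y, ee (-((ξ : ℝ) / M * w y))) * om L ρ ((ξ : ℝ) / M))‖ ≤
      ‖hat M H h ξ‖ * ‖hat M H g ξ‖ * B := by
    intro ξ _
    rw [norm_mul, norm_mul]
    apply mul_le_mul_of_nonneg_left _ (by positivity)
    rw [norm_mul]
    have h3 : ‖∑ y ∈ range Y, ee (-((ξ : ℝ) / M * w y))‖ =
        ‖∑ y ∈ range Y, ee ((ξ : ℝ) / M * w y)‖ := by
      rw [← Complex.norm_conj (∑ y ∈ range Y, ee ((ξ : ℝ) / M * w y)), map_sum]
      simp only [ee_conj]
    rw [h3]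
    exact hW _
  have h4 : (M : ℝ) * |S| ≤ (Real.sqrt (M * ∑ i ∈ range H, h i ^ 2) *
      Real.sqrt (M * ∑ i ∈ range H, g i ^ 2)) * B := by
    rw [h1]
    refine (norm_sum_le _ _).trans ((sum_le_sum h2).trans ?_)
    rw [← sum_mul]
    apply mul_le_mul_of_nonneg_right _ hB
    rw [← parseval M H hM hHM h, ← parseval M H hM hHM g]
    exact Real.sum_mul_le_sqrt_mul_sqrt _ _ _
  rw [Real.sqrt_mul hMR.le, Real.sqrt_mul hMR.le] at h4
  have h5 : (M : ℝ) * |S| ≤ M * (B * Real.sqrt (∑ i ∈ range H, h i ^ 2) *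
      Real.sqrt (∑ j ∈ range H, g j ^ 2)) := by
    refine h4.trans (le_of_eq ?_)
    have h6 := Real.mul_self_sqrt hMR.le
    calc Real.sqrt M * Real.sqrt (∑ i ∈ range H, h i ^ 2) *
          (Real.sqrt M * Real.sqrt (∑ i ∈ range H, g i ^ 2)) * B
        = (Real.sqrt M * Real.sqrt M) * (B * Real.sqrt (∑ i ∈ range H, h i ^ 2) *
          Real.sqrt (∑ j ∈ range H, g j ^ 2)) := by ring
      _ = _ := by rw [h6]
  exact le_of_mul_le_mul_left h5 hMR

end Pool.Agent.R781.WR
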