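import Pool.Agent.R781.WR.Stm

/-!
# Project WR, piece WEYL: the Weyl sum alternative
-/

set_option autoImplicit false

namespace Pool.Agent.R781.WR

open Finset
open Pool.Agent.Helper602.MK (ee)
open Pool.Agent.Helper602.MK.N_J5b (ee_add ee_zero norm_ee ee_int norm_one_sub_ee)

namespace WeylAux

theorem om_le_two (L ρ : ℕ) (β : ℝ) (hL : 1 ≤ L) : ‖om L ρ β‖ ≤ 2 := by
  have hL0 : (0 : ℝ) < L := by exact_mod_cast hL
  have h1 : ‖∑ l ∈ range L, ee (β * ((ρ : ℝ) * l))‖ ≤ L := by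
    refine (norm_sum_le _ _).trans ?_
    simp [norm_ee]
  unfold om
  refine (norm_sub_le _ _).trans ?_
  rw [norm_one, norm_mul, norm_div, norm_one, Complex.norm_natCast]
  have h2 : 1 / (L : ℝ) * ‖∑ l ∈ range L, ee (β * ((ρ : ℝ) * l))‖ ≤ 1 := by
    rw [one_div, inv_mul_le_iff₀ hL0, mul_one]
    exact h1
  linarith

theorem om_small (L ρ : ℕ) (β ε : ℝ) (hL : 1 ≤ L)
    (h : ∀ l < L, ‖1 - ee (β * ((ρ : ℝ) * l))‖ ≤ ε) : ‖om L ρ β‖ ≤ ε := by
  have hL0 : (0 : ℝ) < L := by exact_mod_cast hL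
  have hLc : (L : ℂ) ≠ 0 := by exact_mod_cast hL0.ne'
  have h1 : om L ρ β = (1 / (L : ℂ)) * ∑ l ∈ range L, (1 - ee (β * ((ρ : ℝ) * l))) := by
    unfold om
    rw [sum_sub_distrib, sum_const, card_range, nsmul_eq_mul, mul_one, mul_sub,
      one_div_mul_cancel hLc]
  rw [h1, norm_mul, norm_div, norm_one, Complex.norm_natCast, one_div, inv_mul_le_iff₀ hL0]
  refine (norm_sum_le _ _).trans ?_
  refine (sum_le_sum (fun l hl => h l (mem_range.mp hl))).trans ?_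
  rw [sum_const, card_range, nsmul_eq_mul]

theorem one_sub_ee (x : ℝ) : ‖1 - ee x‖ ≤ 2 * Real.pi * |x| := by
  rw [norm_one_sub_ee]
  have h1 : |Real.sin (Real.pi * x)| ≤ |Real.pi * x| := Real.abs_sin_le_abs
  rw [abs_mul, abs_of_pos Real.pi_pos] at h1
  linarith

open Polynomial in
theorem coeff_pow (z q : ℤ) (k : ℕ) : ((C q * X + C z) ^ k : ℤ[X]).natDegree ≤ k ∧
    ((C q * X + C z) ^ k : ℤ[X]).coeff k = q ^ k := by
  have h1 : (C q * X + C z : ℤ[X]).natDegree ≤ 1 := natDegree_linear_le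
  constructor
  · have := natDegree_pow_le_of_le k h1
    simpa using this
  · have := coeff_pow_of_natDegree_le h1 (m := k)
    rw [mul_one] at this
    rw [this]
    congr 1
    rw [coeff_add, coeff_C_mul, coeff_X_one, mul_one, coeff_C_of_ne_zero one_ne_zero, add_zero]

end WeylAux

open WeylAux

open Polynomial in
theorem t_WEYL : SWeyl := by
  intro k ε hk hε
  obtain ⟨c0, m0, hc0, hIW⟩ := Pool.Agent.H373R2.NB.IW_all k hk
  set u : ℝ := max 1 (1 / ε) with hu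
  have hu1 : 1 ≤ u := le_max_left _ _
  have hue : 1 ≤ u * ε := by
    have : 1 / ε ≤ u := le_max_right _ _
    rwa [div_le_iff₀ hε] at this
  set Q : ℕ := ⌈(c0 : ℝ) * u ^ m0⌉₊ with hQ
  have hQle : (c0 : ℝ) * u ^ m0 ≤ Q := Nat.le_ceil _
  have hQ1 : 1 ≤ Q := by
    have h1 : (1 : ℝ) ≤ (c0 : ℝ) * u ^ m0 := by
      have h2 : (1 : ℝ) ≤ c0 := by exact_mod_cast hc0
      have h3 : 1 ≤ u ^ m0 := one_le_pow₀ hu1
      nlinarith
    exact_mod_cast h1.trans hQle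
  have hQpos : (0 : ℝ) < Q := by exact_mod_cast hQ1
  have hFpos : (0 : ℝ) < (Q.factorial : ℝ) := by exact_mod_cast Nat.factorial_pos Q
  refine ⟨Q.factorial, ε / (2 * Real.pi * Q.factorial * Q), Nat.factorial_pos Q, by
    have := Real.pi_pos
    positivity, ?_⟩
  intro q z Y L m w hq hY hL hLY hw β
  have hYpos : (0 : ℝ) < Y := by exact_mod_cast hY
  have hqpos : (0 : ℝ) < q := by exact_mod_cast hq
  have hSY : ‖∑ y ∈ range Y, ee (β * w y)‖ ≤ Y := by
    refine (norm_sum_le _ _).trans ?_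
    simp [norm_ee]
  by_cases hcase : ‖∑ y ∈ range Y, ee (β * w y)‖ ≤ ε * Y
  · have h1 := om_le_two L (k.factorial * q ^ (k - 1) * Q.factorial) β hL
    calc _ ≤ (ε * Y) * 2 := mul_le_mul hcase h1 (norm_nonneg _) (by positivity)
      _ = 2 * ε * Y := by ring
  push Not at hcase
  obtain ⟨hdeg, hcoef⟩ := coeff_pow (z : ℤ) (q : ℤ) k
  set f : ℤ[X] := (C (q : ℤ) * X + C (z : ℤ)) ^ k with hf
  set γ : ℝ := -β / q with hγ
  have hev : ∀ y : ℕ, (f.eval (y : ℤ) : ℤ) = ((z + q * y : ℕ) : ℤ) ^ k := by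
    intro y
    rw [hf]
    simp
    ring
  have hphase : ∀ y < Y, β * (w y : ℝ) = β * m / q + γ * ((f.eval (y : ℤ) : ℤ) : ℝ) := by
    intro y hy
    have h1 : (q : ℝ) * (w y : ℝ) = (m : ℝ) - ((f.eval (y : ℤ) : ℤ) : ℝ) := by
      rw [hev]
      exact_mod_cast hw y hy
    have h2 : (w y : ℝ) = ((m : ℝ) - ((f.eval (y : ℤ) : ℤ) : ℝ)) / q := by
      rw [← h1]
      field_simp
    rw [h2, hγ]
    ring
  have hSeq : ‖∑ y ∈ range Y, ee (β * w y)‖ =
      ‖∑ y ∈ range Y, ee (γ * ((f.eval (y : ℤ) : ℤ) : ℝ))‖ := by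
    have h1 : ∑ y ∈ range Y, ee (β * w y) =
        ee (β * m / q) * ∑ y ∈ range Y, ee (γ * ((f.eval (y : ℤ) : ℤ) : ℝ)) := by
      rw [mul_sum]
      apply sum_congr rfl
      intro y hy
      rw [hphase y (mem_range.mp hy), ee_add]
    rw [h1, norm_mul, norm_ee, one_mul]
  have hPh := Pool.Agent.H373R2.NB.Ph_poly k f hdeg γ
  obtain ⟨q1, hq11, hq1Q, a, ha⟩ := hIW Y u _ _ hY hu1 hPh (by
    rw [← hSeq]
    have h1 : u * (ε * Y) ≤ u * ‖∑ y ∈ range Y, ee (β * w y)‖ :=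
      mul_le_mul_of_nonneg_left hcase.le (by positivity)
    have h2 : (Y : ℝ) ≤ u * (ε * Y) := by
      have h3 : (Y : ℝ) * 1 ≤ Y * (u * ε) := mul_le_mul_of_nonneg_left hue hYpos.le
      linarith
    linarith)
  have hq1Q' : q1 ≤ Q := by exact_mod_cast hq1Q.trans hQle
  obtain ⟨t, ht⟩ := Nat.dvd_factorial hq11 hq1Q'
  have htF : (t : ℝ) ≤ Q.factorial := by
    have : t ≤ Q.factorial := by
      rw [ht]
      exact Nat.le_mul_of_pos_left t hq11
    exact_mod_cast this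
  rw [hcoef] at ha
  set α : ℝ := γ * ((k.factorial : ℝ) * (((q : ℤ) ^ k : ℤ) : ℝ)) with hα
  have hαβ : ((k.factorial * q ^ (k - 1) * Q.factorial : ℕ) : ℝ) * β = -(Q.factorial * α) := by
    rw [hα, hγ]
    obtain ⟨k', rfl⟩ : ∃ k', k = k' + 1 := ⟨k - 1, by omega⟩
    push_cast
    rw [pow_succ (q : ℝ) k']
    field_simp
  have hθ : ((k.factorial * q ^ (k - 1) * Q.factorial : ℕ) : ℝ) * β =
      ((-(t * a) : ℤ) : ℝ) + (-(t * (q1 * α - a))) := by
    rw [hαβ, ht]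
    push_cast
    ring
  have hbound : 2 * Real.pi * |t * (q1 * α - a)| * L ≤ ε := by
    have h1 : |(t : ℝ) * (q1 * α - a)| ≤ Q.factorial * (Q / (Y : ℝ) ^ k) := by
      rw [abs_mul, abs_of_nonneg (Nat.cast_nonneg t)]
      refine mul_le_mul htF (ha.trans ?_) (abs_nonneg _) hFpos.le
      exact div_le_div_of_nonneg_right hQle (by positivity)
    have h2 : |(t : ℝ) * (q1 * α - a)| * L ≤
        Q.factorial * (Q / (Y : ℝ) ^ k) * (ε / (2 * Real.pi * Q.factorial * Q) * (Y : ℝ) ^ k) :=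
      mul_le_mul h1 hLY (Nat.cast_nonneg L) (by positivity)
    have h3 : Q.factorial * (Q / (Y : ℝ) ^ k) *
        (ε / (2 * Real.pi * Q.factorial * Q) * (Y : ℝ) ^ k) = ε / (2 * Real.pi) := by
      have := Real.pi_pos
      field_simp
    rw [h3, le_div_iff₀ (by have := Real.pi_pos; positivity)] at h2
    linarith
  have hom : ‖om L (k.factorial * q ^ (k - 1) * Q.factorial) β‖ ≤ ε := by
    apply om_small _ _ _ _ hL
    intro l hl
    have h1 : β * (((k.factorial * q ^ (k - 1) * Q.factorial : ℕ) : ℝ) * l) =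
        ((-(t * a) * l : ℤ) : ℝ) + (-(t * (q1 * α - a))) * l := by
      have h2 : β * (((k.factorial * q ^ (k - 1) * Q.factorial : ℕ) : ℝ) * l) =
          (((k.factorial * q ^ (k - 1) * Q.factorial : ℕ) : ℝ) * β) * l := by ring
      rw [h2, hθ]
      push_cast
      ring
    rw [h1, ee_add, ee_int, one_mul]
    refine (one_sub_ee _).trans ?_
    rw [abs_mul, abs_neg, abs_of_nonneg (Nat.cast_nonneg l : (0 : ℝ) ≤ l)]
    have h3 : (l : ℝ) ≤ L := by exact_mod_cast hl.le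
    have h4 : |(t : ℝ) * (q1 * α - a)| * l ≤ |(t : ℝ) * (q1 * α - a)| * L :=
      mul_le_mul_of_nonneg_left h3 (abs_nonneg _)
    have h5 := Real.pi_pos
    nlinarith
  calc _ ≤ (Y : ℝ) * ε := mul_le_mul hSY hom (norm_nonneg _) hYpos.le
    _ ≤ 2 * ε * Y := by nlinarith

end Pool.Agent.R781.WR
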