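import Pool.Agent.R781.WR.Core2
import Pool.Agent.R781.WR.Incr2
import Pool.Agent.R781.WR.Sel2
import Pool.Agent.R781.WR.P_FOU
import Pool.Agent.R781.WR.P_WEYL

/-!
# Two dense sets and `k`-th powers: assembly
-/

set_option autoImplicit false

namespace Pool.Agent.R781.WR

open Finset Filter
open Pool.Agent.Helper602.MK (ee)
open Pool.Agent.R500.WB (Loc)

lemma floor_ge' {x : ℝ} (hx : 2 ≤ x) : x / 2 ≤ (⌊x⌋₊ : ℝ) := by
  have := Nat.lt_floor_add_one x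
  linarith

/-- the indicator function of the set in the progression -/
noncomputable def ind (A : Set ℤ) (u : ℤ) (q H : ℕ) : ℤ → ℝ := by
  classical
  exact fun v => if 0 ≤ v ∧ v < (H : ℤ) ∧ u + (q : ℤ) * v ∈ A then 1 else 0

lemma ind_mem {A : Set ℤ} {u : ℤ} {q H : ℕ} {v : ℤ} (hv : 0 < ind A u q H v) : u + (q : ℤ) * v ∈ A := by
  classical
  by_contra hcon
  have : ind A u q H v = 0 := by
    simp only [ind]
    rw [if_neg (fun h7 => hcon h7.2.2)]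
  linarith

lemma fn_of {A : Set ℤ} {u : ℤ} {q H L ρ : ℕ} {η : ℝ} (hH : 1 ≤ H) (hpos : 0 < cnt A u q H)
    (hmax : ∀ u', (cnt A u' (q * ρ) L : ℝ) * H ≤ (1 + η) * cnt A u q H * L) :
    Fn H L ρ η ((cnt A u q H : ℝ) / H) (ind A u q H) := by
  classical
  have hHR : (0 : ℝ) < H := by exact_mod_cast hH
  have hcR : (0 : ℝ) < cnt A u q H := by exact_mod_cast hpos
  have hfH : (cnt A u q H : ℝ) / H * H = cnt A u q H := by field_simp
  refine ⟨by positivity, ?_, ?_, ?_, ?_⟩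
  · intro v
    simp only [ind]
    split_ifs <;> norm_num
  · intro v hv
    simp only [ind]
    rw [if_neg]
    rintro ⟨h4, h5, -⟩
    omega
  · rw [hfH]
    unfold cnt
    rw [card_filter]
    push_cast
    refine sum_congr rfl fun i hi => ?_
    have hi' := mem_range.1 hi
    simp only [ind]
    by_cases h5 : u + (q : ℤ) * i ∈ A
    · rw [if_pos ⟨by omega, by exact_mod_cast hi', h5⟩, if_pos h5]
    · rw [if_neg (fun h6 => h5 h6.2.2), if_neg h5]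
  · intro v
    have h4 : ∑ l ∈ range L, ind A u q H (v + ρ * l) ≤ cnt A (u + q * v) (q * ρ) L := by
      unfold cnt
      rw [card_filter]
      push_cast
      refine sum_le_sum fun l _ => ?_
      simp only [ind]
      by_cases h5 : u + (q : ℤ) * (v + ρ * l) ∈ A
      · have h6 : u + (q : ℤ) * v + q * ρ * l ∈ A := by
          convert h5 using 1
          ring
        rw [if_pos h6]
        split_ifs <;> norm_num
      · rw [if_neg (fun h7 => h5 h7.2.2)]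
        split_ifs <;> norm_num
    have h5 := hmax (u + q * v)
    have h6 : (1 + η) * ((cnt A u q H : ℝ) / H) * L * H = (1 + η) * cnt A u q H * L := by
      field_simp
    rw [← h6] at h5
    exact h4.trans (le_of_mul_le_mul_right h5 hHR)

/-- The two-set theorem for `δ ≤ 1`. -/
theorem main2_aux (k s : ℕ) (hk : 1 ≤ k) (hloc : ∀ q, 1 ≤ q → Loc k (s + 1) q) (δ : ℝ) (hδ : 0 < δ)
    (hδ1 : δ ≤ 1) :
    ∃ C : ℕ, ∀ᶠ n : ℕ in atTop, ∀ A B : Set ℕ, δ * n ≤ ((A ∩ {a | 4 * a < n}).ncard : ℝ) →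
      δ * n ≤ ((B ∩ {b | 4 * b < n}).ncard : ℝ) →
      ∃ a ∈ A, ∃ b ∈ B, ∃ x : ℕ, 1 ≤ x ∧ ∃ c : Fin s → ℕ,
        (∀ i, 1 ≤ c i ∧ c i ≤ C) ∧ a + b + x ^ k + ∑ i, c i ^ k = n := by
  classical
  set δ2 : ℝ := δ * δ with hδ2
  have hδ20 : 0 < δ2 := by positivity
  have hδ21 : δ2 ≤ 1 := by nlinarith
  set η : ℝ := δ2 / 64 with hη
  have hη0 : 0 < η := by positivity
  obtain ⟨Λ, cw, hΛ, hcw, hweyl⟩ := t_WEYL k η hk hη0
  -- the states
  let St : Type := {p : ℕ × ℝ // 1 ≤ p.1 ∧ 0 < p.2 ∧ 4 * (p.1 : ℝ) * p.2 ≤ 1}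
  choose τ n₀ hτ hsel using fun p : St => sel2 k s hk hloc p.1.1 p.1.2 p.2.1 p.2.2.1 p.2.2.2
  have hρ1 : ∀ p : St, 1 ≤ k.factorial * p.1.1 ^ (k - 1) * Λ := fun p =>
    Nat.mul_pos (Nat.mul_pos (Nat.factorial_pos k) (Nat.pow_pos p.2.1)) hΛ
  have hnext : ∀ p : St, ∃ p' : St, p'.1.1 = p.1.1 * (k.factorial * p.1.1 ^ (k - 1) * Λ) ∧
      p'.1.2 ≤ cw * τ p ∧
      p'.1.2 * (8 * ((k.factorial * p.1.1 ^ (k - 1) * Λ : ℕ) : ℝ)) ≤ η * p.1.2 := by
    intro p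
    set ρ : ℕ := k.factorial * p.1.1 ^ (k - 1) * Λ with hρ
    have hρ0 : (0 : ℝ) < ρ := by exact_mod_cast hρ1 p
    have hq' : 1 ≤ p.1.1 * ρ := Nat.mul_pos p.2.1 (hρ1 p)
    have hq'0 : (0 : ℝ) < ((p.1.1 * ρ : ℕ) : ℝ) := by exact_mod_cast hq'
    refine ⟨⟨(p.1.1 * ρ, min (cw * τ p) (min (η * p.1.2 / (8 * ρ)) (1 / (4 * ((p.1.1 * ρ : ℕ) : ℝ))))),
      hq', ?_, ?_⟩, rfl, min_le_left _ _, ?_⟩
    · have h1 := hτ p
      have h2 := p.2.2.1
      simp only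
      refine lt_min (by positivity) (lt_min (by positivity) (by positivity))
    · simp only
      have h1 : min (cw * τ p) (min (η * p.1.2 / (8 * ρ)) (1 / (4 * ((p.1.1 * ρ : ℕ) : ℝ)))) ≤
          1 / (4 * ((p.1.1 * ρ : ℕ) : ℝ)) := (min_le_right _ _).trans (min_le_right _ _)
      calc 4 * ((p.1.1 * ρ : ℕ) : ℝ) * _ ≤ 4 * ((p.1.1 * ρ : ℕ) : ℝ) * (1 / (4 * ((p.1.1 * ρ : ℕ) : ℝ))) :=
            mul_le_mul_of_nonneg_left h1 (by positivity)
        _ = 1 := by field_simp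
    · simp only
      have h1 : min (cw * τ p) (min (η * p.1.2 / (8 * ρ)) (1 / (4 * ((p.1.1 * ρ : ℕ) : ℝ)))) ≤
          η * p.1.2 / (8 * ρ) := (min_le_right _ _).trans (min_le_left _ _)
      calc _ ≤ η * p.1.2 / (8 * ρ) * (8 * ρ) := mul_le_mul_of_nonneg_right h1 (by positivity)
        _ = η * p.1.2 := by field_simp
  choose nx hnx1 hnx2 hnx3 using hnext
  let p0 : St := ⟨(1, 1 / 4), le_rfl, by norm_num, by norm_num⟩
  let sq : ℕ → St := fun j => nx^[j] p0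
  have hsq1 : ∀ j, sq (j + 1) = nx (sq j) := fun j => Function.iterate_succ_apply' nx j p0
  set ρ : ℕ → ℕ := fun j => k.factorial * (sq j).1.1 ^ (k - 1) * Λ with hρ
  obtain ⟨J, hJ⟩ := pow_unbounded_of_one_lt (1 / δ2) (show 1 < 1 + η / 2 by linarith)
  have hJ' : 1 < (1 + η / 2) ^ J * δ2 := by
    rw [div_lt_iff₀ hδ20] at hJ
    exact hJ
  refine ⟨∑ j ∈ range J, (sq j).1.1, ?_⟩
  -- the conditions on `n`
  have e1 : ∀ᶠ n : ℕ in atTop, ∀ j ∈ range (J + 1), n₀ (sq j) ≤ n := by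
    rw [eventually_all_finset]
    exact fun j _ => eventually_ge_atTop _
  have e2 : ∀ᶠ n : ℕ in atTop, ∀ j ∈ range (J + 1), 2 ≤ (sq j).1.2 * n := by
    rw [eventually_all_finset]
    intro j _
    have h1 : Tendsto (fun n : ℕ => (sq j).1.2 * (n : ℝ)) atTop atTop :=
      tendsto_natCast_atTop_atTop.const_mul_atTop (sq j).2.2.1
    exact h1.eventually_ge_atTop 2
  have e3 : ∀ᶠ n : ℕ in atTop, 2 ≤ δ * (n : ℝ) := by
    have h1 : Tendsto (fun n : ℕ => δ * (n : ℝ)) atTop atTop :=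
      tendsto_natCast_atTop_atTop.const_mul_atTop hδ
    exact h1.eventually_ge_atTop 2
  filter_upwards [e1, e2, e3] with n h1 h2 h3 A B hA hB
  have hnn : (0 : ℝ) ≤ n := Nat.cast_nonneg n
  -- the sets
  set S : Set ℕ → Set ℤ := fun A => {v | ∃ a ∈ A, (a : ℤ) = v ∧ 4 * a < n} with hS
  set H : ℕ → ℕ := fun j => ⌊(sq j).1.2 * n⌋₊ with hH
  have hH1 : ∀ j ≤ J, 1 ≤ H j := by
    intro j hj
    have h4 := h2 j (mem_range.2 (by omega))
    exact Nat.le_floor (by push_cast; linarith)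
  have hH0 : H 0 = ⌊(1 / 4 : ℝ) * n⌋₊ := rfl
  have hHle : (H 0 : ℝ) ≤ 1 / 4 * n := by
    rw [hH0]
    exact Nat.floor_le (by positivity)
  have hstart : ∀ A : Set ℕ, δ * n ≤ ((A ∩ {a | 4 * a < n}).ncard : ℝ) →
      δ * H 0 ≤ cnt (S A) 0 1 (H 0) := by
    intro A hA
    have h4 : A ∩ {a | 4 * a < n} ⊆ (((range (H 0)).filter (fun j : ℕ => (0 : ℤ) + (1 : ℕ) * j ∈ S A) ∪
        {H 0} : Finset ℕ) : Set ℕ) := by
      rintro a ⟨ha, han⟩
      change 4 * a < n at han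
      have h6 : a ≤ H 0 := by
        rw [hH0]
        apply Nat.le_floor
        have : (4 * a : ℝ) < n := by exact_mod_cast han
        linarith
      rw [mem_coe, mem_union, mem_filter, mem_singleton, mem_range]
      rcases h6.lt_or_eq with h | h
      · left
        refine ⟨h, a, ha, ?_, han⟩
        push_cast
        ring
      · right
        exact h
    have h5 := Set.ncard_le_ncard h4 (Finset.finite_toSet _)
    rw [Set.ncard_coe_finset] at h5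
    have h6 := h5.trans (card_union_le _ _)
    rw [card_singleton] at h6
    have h7 : (cnt (S A) 0 1 (H 0)) = ((range (H 0)).filter (fun j : ℕ => (0 : ℤ) + (1 : ℕ) * j ∈ S A)).card := by
      unfold cnt
      congr
    rw [← h7] at h6
    have h8 : ((A ∩ {a | 4 * a < n}).ncard : ℝ) ≤ cnt (S A) 0 1 (H 0) + 1 := by exact_mod_cast h6
    have h9 : δ * H 0 ≤ δ * (1 / 4 * n) := mul_le_mul_of_nonneg_left hHle hδ.le
    linarith
  have hstart' : ∃ u v, δ2 * (H 0 * H 0) ≤ (cnt (S A) u ((fun j => (sq j).1.1) 0) (H 0) : ℝ) *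
      cnt (S B) v ((fun j => (sq j).1.1) 0) (H 0) := by
    refine ⟨0, 0, ?_⟩
    have h4 := hstart A hA
    have h5 := hstart B hB
    have h6 : δ2 * (H 0 * H 0) = (δ * H 0) * (δ * H 0) := by rw [hδ2]; ring
    rw [h6]
    exact mul_le_mul h4 h5 (by positivity) (Nat.cast_nonneg _)
  have hρL' : ∀ j < J, 4 * (ρ j : ℝ) * H (j + 1) ≤ η * H j := by
    intro j hj
    have h4 : (sq j).1.2 * n / 2 ≤ H j := floor_ge' (h2 j (mem_range.2 (by omega)))
    have hκn2 : (sq (j + 1)).1.2 * (8 * (ρ j : ℝ)) ≤ η * (sq j).1.2 := by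
      rw [hsq1]
      exact hnx3 _
    have hLle : (H (j + 1) : ℝ) ≤ (sq (j + 1)).1.2 * n :=
      Nat.floor_le (mul_nonneg (sq (j + 1)).2.2.1.le hnn)
    calc 4 * (ρ j : ℝ) * H (j + 1) ≤ 4 * ρ j * ((sq (j + 1)).1.2 * n) :=
          mul_le_mul_of_nonneg_left hLle (by positivity)
      _ = (sq (j + 1)).1.2 * (8 * (ρ j : ℝ)) * (n / 2) := by ring
      _ ≤ η * (sq j).1.2 * (n / 2) := mul_le_mul_of_nonneg_right hκn2 (by positivity)
      _ = η * ((sq j).1.2 * n / 2) := by ring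
      _ ≤ η * H j := mul_le_mul_of_nonneg_left h4 hη0.le
  obtain ⟨j, hj, u, v, hu1, hu2, hv2⟩ := incr2 (S A) (S B) (fun j => (sq j).1.1) H ρ hδ20 hη0
    (by linarith) hJ' hH1 (fun j _ => by rw [hsq1, hnx1]) hρL' hstart'
  set p : St := sq j with hp
  set q : ℕ := p.1.1 with hq
  set κ : ℝ := p.1.2 with hκ
  set L : ℕ := H (j + 1) with hL
  have hq1 : 1 ≤ q := p.2.1
  have hκ0 : 0 < κ := p.2.2.1
  have hqκ : 4 * (q : ℝ) * κ ≤ 1 := p.2.2.2
  have hHj : H j = ⌊κ * n⌋₊ := rfl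
  have hH1j : 1 ≤ H j := hH1 j hj.le
  have hHR : (0 : ℝ) < H j := by exact_mod_cast hH1j
  have hL1 : 1 ≤ L := hH1 (j + 1) (by omega)
  have hqn : (sq (j + 1)).1.1 = q * ρ j := by
    rw [hsq1, hnx1]
  have hκn1 : (sq (j + 1)).1.2 ≤ cw * τ p := by
    rw [hsq1]
    exact hnx2 _
  rw [hqn] at hu2 hv2
  have hLle : (L : ℝ) ≤ (sq (j + 1)).1.2 * n := Nat.floor_le (mul_nonneg (sq (j + 1)).2.2.1.le hnn)
  -- the location of the progressions
  have hprod : (0 : ℝ) < (cnt (S A) u q (H j) : ℝ) * cnt (S B) v q (H j) :=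
    lt_of_lt_of_le (by positivity) hu1
  have hcu : 0 < cnt (S A) u q (H j) := by
    rcases Nat.eq_zero_or_pos (cnt (S A) u q (H j)) with h | h
    · rw [h] at hprod
      simp at hprod
    · exact h
  have hcv : 0 < cnt (S B) v q (H j) := by
    rcases Nat.eq_zero_or_pos (cnt (S B) v q (H j)) with h | h
    · rw [h] at hprod
      simp at hprod
    · exact h
  have hloc' : ∀ (A : Set ℕ) (u : ℤ), 0 < cnt (S A) u q (H j) → -(n : ℤ) ≤ 4 * u ∧ 4 * u ≤ n := by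
    intro A u hcpos
    unfold cnt at hcpos
    obtain ⟨i, hi⟩ := card_pos.1 hcpos
    rw [mem_filter] at hi
    obtain ⟨hi1, a, ha, hai, han⟩ := hi
    have h4 : (i : ℝ) ≤ κ * n := by
      have h5 : (i : ℝ) ≤ H j := by exact_mod_cast (mem_range.1 hi1).le
      exact h5.trans (Nat.floor_le (by positivity))
    have h5 : 4 * ((q : ℝ) * i) ≤ n := by
      calc 4 * ((q : ℝ) * i) ≤ 4 * (q * (κ * n)) := by gcongr
        _ = (4 * q * κ) * n := by ring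
        _ ≤ 1 * n := mul_le_mul_of_nonneg_right hqκ hnn
        _ = n := one_mul _
    have h6 : 4 * ((q : ℤ) * i) ≤ n := by exact_mod_cast h5
    have h7 : (0 : ℤ) ≤ (q : ℤ) * i := by positivity
    constructor
    · omega
    · omega
  obtain ⟨lu1, lu2⟩ := hloc' A u hcu
  obtain ⟨lv1, lv2⟩ := hloc' B v hcv
  obtain ⟨Y, z, c, w, hY1, hz1, hYτ, hc, hw1, hw2⟩ := hsel p n (h1 j (mem_range.2 (by omega))) (u + v)
    (by omega) (by omega)
  have hLY : (L : ℝ) ≤ cw * (Y : ℝ) ^ k := by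
    calc (L : ℝ) ≤ (sq (j + 1)).1.2 * n := hLle
      _ ≤ cw * τ p * n := mul_le_mul_of_nonneg_right hκn1 hnn
      _ = cw * (τ p * n) := by ring
      _ ≤ cw * (Y : ℝ) ^ k := mul_le_mul_of_nonneg_left hYτ hcw.le
  have hwey := hweyl q z Y L ((n : ℤ) - (u + v) - ∑ i, (c i : ℤ) ^ k) w hq1 hY1 hL1 hLY hw1
  have hff : δ2 ≤ (cnt (S A) u q (H j) : ℝ) / H j * ((cnt (S B) v q (H j) : ℝ) / H j) := by
    rw [div_mul_div_comm, le_div_iff₀ (by positivity)]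
    exact hu1
  obtain ⟨y, hy, i, i', hi, hi', hii⟩ := core2 t_FOU hH1j hY1 hL1 hη0.le hη0.le
    (fn_of hH1j hcu hu2) (fn_of hH1j hcv hv2) (hρL' j hj) hw2 hwey (by linarith)
  obtain ⟨a, ha, hai, -⟩ := ind_mem hi
  obtain ⟨b, hb, hbi, -⟩ := ind_mem hi'
  refine ⟨a, ha, b, hb, z + q * y, by omega, c, fun i => ⟨(hc i).1, (hc i).2.trans ?_⟩, ?_⟩
  · exact single_le_sum (f := fun j => (sq j).1.1) (fun _ _ => Nat.zero_le _) (mem_range.2 hj)
  · have h4 := hw1 y hy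
    have h5 : (a : ℤ) + b + ((z + q * y : ℕ) : ℤ) ^ k + ∑ i, (c i : ℤ) ^ k = n := by
      have h6 : (a : ℤ) + b = (u + v) + q * w y := by
        rw [hai, hbi, ← hii]; ring
      rw [h6, h4]
      ring
    exact_mod_cast h5

/-- **The two-set theorem.** -/
theorem main2 (k s : ℕ) (hk : 1 ≤ k) (hloc : ∀ q, 1 ≤ q → Loc k (s + 1) q) (δ : ℝ) (hδ : 0 < δ) :
    ∃ C : ℕ, ∀ᶠ n : ℕ in atTop, ∀ A B : Set ℕ, δ * n ≤ ((A ∩ {a | 4 * a < n}).ncard : ℝ) →
      δ * n ≤ ((B ∩ {b | 4 * b < n}).ncard : ℝ) →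
      ∃ a ∈ A, ∃ b ∈ B, ∃ x : ℕ, 1 ≤ x ∧ ∃ c : Fin s → ℕ,
        (∀ i, 1 ≤ c i ∧ c i ≤ C) ∧ a + b + x ^ k + ∑ i, c i ^ k = n := by
  obtain ⟨C, hC⟩ := main2_aux k s hk hloc (min δ 1) (lt_min hδ one_pos) (min_le_right _ _)
  refine ⟨C, ?_⟩
  filter_upwards [hC] with n hn A B hA hB
  have h1 : min δ 1 * (n : ℝ) ≤ δ * n := mul_le_mul_of_nonneg_right (min_le_left _ _) (Nat.cast_nonneg n)
  exact hn A B (h1.trans hA) (h1.trans hB)

end Pool.Agent.R781.WR
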