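import Pool.Agent.R781.WR.Stm

/-! Piece INCR: the density increment. -/

set_option autoImplicit false

namespace Pool.Agent.R781.WR

open Finset

lemma incr_cnt_le (A : Set ℤ) (u : ℤ) (q H : ℕ) : cnt A u q H ≤ H := by
  classical
  unfold cnt
  refine (Finset.card_filter_le _ _).trans ?_
  simp

/-- Piece INCR. -/
theorem t_INCR : SIncr := by
  intro A q H δ η J hδ hη hJ hH h0
  by_contra hcon
  push Not at hcon
  have key : ∀ j : ℕ, j ≤ J → ∃ u : ℤ, (1 + η) ^ j * δ * H j ≤ cnt A u (q j) (H j) := by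
    intro j
    induction j with
    | zero =>
      intro _
      obtain ⟨u, hu⟩ := h0
      exact ⟨u, by simpa using hu⟩
    | succ j ih =>
      intro hj
      obtain ⟨u, hu⟩ := ih (by omega)
      have hH0 : (0 : ℝ) < H j := by exact_mod_cast hH j (by omega)
      have hH1 : (0 : ℝ) < H (j + 1) := by exact_mod_cast hH (j + 1) hj
      have h1 : (1 : ℝ) ≤ (1 + η) ^ j := one_le_pow₀ (by linarith)
      have h2 : δ * H j ≤ cnt A u (q j) (H j) := by
        refine le_trans ?_ hu
        have : 0 ≤ δ * H j := by positivity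
        nlinarith
      obtain ⟨u', hu'⟩ := hcon j (by omega) u h2
      refine ⟨u', ?_⟩
      have h3 : (1 + η) * ((1 + η) ^ j * δ * H j) * H (j + 1) ≤
          (1 + η) * cnt A u (q j) (H j) * H (j + 1) := by
        apply mul_le_mul_of_nonneg_right _ hH1.le
        exact mul_le_mul_of_nonneg_left hu (by linarith)
      have h4 := (h3.trans_lt hu').le
      have h5 : ((1 + η) ^ (j + 1) * δ * H (j + 1)) * H j ≤
          (cnt A u' (q (j + 1)) (H (j + 1)) : ℝ) * H j := by
        refine le_trans (le_of_eq ?_) h4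
        ring
      exact le_of_mul_le_mul_right h5 hH0
  obtain ⟨u, hu⟩ := key J le_rfl
  have hHJ : (0 : ℝ) < H J := by exact_mod_cast hH J le_rfl
  have h6 : (cnt A u (q J) (H J) : ℝ) ≤ H J := by exact_mod_cast incr_cnt_le A u (q J) (H J)
  have h7 : (H J : ℝ) * 1 < H J * ((1 + η) ^ J * δ) := mul_lt_mul_of_pos_left hJ hHJ
  linarith

end Pool.Agent.R781.WR
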