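import Pool.Agent.R781.WR.Stm

/-!
# WR-SEL (helper139): choice of the `k`-th powers
-/

set_option autoImplicit false

namespace Pool.Agent.R781.WR

open Finset
open Pool.Agent.R500.WB (Loc)

namespace SEL

lemma pow_sub_le (k : ℕ) (x y : ℝ) (hx : 0 ≤ x) (hxy : x ≤ y) :
    y ^ (k + 1) - x ^ (k + 1) ≤ (k + 1) * y ^ k * (y - x) := by
  have hy : 0 ≤ y := hx.trans hxy
  induction k with
  | zero => simp
  | succ k ih =>
    have h1 : x ^ (k + 1) ≤ y ^ (k + 1) := pow_le_pow_left₀ hx hxy _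
    have e : y ^ (k + 1 + 1) - x ^ (k + 1 + 1) =
        y * (y ^ (k + 1) - x ^ (k + 1)) + x ^ (k + 1) * (y - x) := by ring
    rw [e]
    have h2 := mul_le_mul_of_nonneg_left ih hy
    have h3 := mul_le_mul_of_nonneg_right h1 (sub_nonneg.2 hxy)
    push_cast
    have e2 : y * (((k : ℝ) + 1) * y ^ k * (y - x)) = ((k : ℝ) + 1) * y ^ (k + 1) * (y - x) := by
      ring
    rw [e2] at h2
    nlinarith

/-- representative in `[1,q]`. -/
def rep (q r : ℕ) : ℕ := if r % q = 0 then q else r % q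

lemma rep_pos (q r : ℕ) (hq : 1 ≤ q) : 1 ≤ rep q r := by
  unfold rep
  split_ifs with h
  · exact hq
  · omega

lemma rep_le (q r : ℕ) (hq : 1 ≤ q) : rep q r ≤ q := by
  unfold rep
  split_ifs with h
  · exact le_rfl
  · exact (Nat.mod_lt _ hq).le

lemma rep_mod (q r : ℕ) : rep q r ≡ r [MOD q] := by
  unfold rep
  split_ifs with h
  · show q % q = r % q
    rw [Nat.mod_self, h]
  · exact Nat.mod_modEq _ _

lemma exists_t (k q c : ℕ) (hk : 1 ≤ k) (hq : 1 ≤ q) (X : ℤ) (hX : 2 * (c : ℤ) ^ k ≤ X) :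
    ∃ t : ℕ, 2 * ((c + q * t : ℕ) : ℤ) ^ k ≤ X ∧ X < 2 * ((c + q * (t + 1) : ℕ) : ℤ) ^ k := by
  classical
  have hex : ∃ t : ℕ, X < 2 * ((c + q * (t + 1) : ℕ) : ℤ) ^ k := by
    refine ⟨X.toNat, ?_⟩
    have h1 : X ≤ (X.toNat : ℤ) := Int.self_le_toNat X
    have h2 : X.toNat + 1 ≤ c + q * (X.toNat + 1) := by nlinarith
    have h3 : c + q * (X.toNat + 1) ≤ (c + q * (X.toNat + 1)) ^ k :=
      Nat.le_self_pow (by omega) _
    have h4 : ((X.toNat + 1 : ℕ) : ℤ) ≤ ((c + q * (X.toNat + 1) : ℕ) : ℤ) ^ k := by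
      exact_mod_cast h2.trans h3
    push_cast at h4 ⊢
    have h5 : (0 : ℤ) ≤ (X.toNat : ℤ) := by positivity
    linarith
  refine ⟨Nat.find hex, ?_, Nat.find_spec hex⟩
  rcases Nat.eq_zero_or_pos (Nat.find hex) with h0 | h0
  · rw [h0, mul_zero, add_zero]
    exact hX
  · obtain ⟨t, ht⟩ := Nat.exists_eq_add_of_le' h0
    have h1 := Nat.find_min hex (m := t) (by omega)
    rw [ht]
    exact not_lt.1 h1

end SEL

open SEL in
theorem t_SEL : SSel := by
  intro k s hk hloc q κ hq hκ hqκ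
  obtain ⟨k', rfl⟩ := Nat.exists_eq_add_of_le' hk
  set k : ℕ := k' + 1 with hkdef
  have hqr : (1 : ℝ) ≤ q := by exact_mod_cast hq
  have hk0 : (0 : ℝ) < k := by exact_mod_cast hk
  set D : ℝ := 8 * k * (2 + q) ^ k' with hD
  have hD0 : 0 < D := by positivity
  set σ : ℝ := min 1 (κ / D) with hσ
  have hσ0 : 0 < σ := lt_min one_pos (div_pos hκ hD0)
  have hσ1 : σ ≤ 1 := min_le_left _ _
  have hσD : σ * D ≤ κ := by
    have := min_le_right 1 (κ / D)
    rwa [← hσ, le_div_iff₀ hD0] at this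
  refine ⟨(σ / 2) ^ k, ⌈2 / κ⌉₊ + 4 * (s + 1) * q ^ k + ⌈(2 / σ) ^ k⌉₊, by positivity, ?_⟩
  intro n hn u hu1 hu2
  -- size conditions
  have n1 : 2 ≤ κ * n := by
    have h1 : (⌈2 / κ⌉₊ : ℝ) ≤ n := by exact_mod_cast (by omega)
    have h2 := (Nat.le_ceil (2 / κ)).trans h1
    rw [div_le_iff₀ hκ] at h2
    linarith
  have n2 : 4 * ((s : ℤ) + 1) * (q : ℤ) ^ k ≤ n := by
    have : 4 * (s + 1) * q ^ k ≤ n := by omega
    exact_mod_cast this
  have n3 : (2 / σ) ^ k ≤ n := by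
    have h1 : (⌈(2 / σ) ^ k⌉₊ : ℝ) ≤ n := by exact_mod_cast (by omega)
    exact (Nat.le_ceil _).trans h1
  -- the root
  set a : ℝ := (n : ℝ) ^ ((k : ℝ)⁻¹) with ha
  have ha0 : 0 ≤ a := by positivity
  have hak : a ^ k = n := Real.rpow_inv_natCast_pow (Nat.cast_nonneg n) (by omega)
  have haσ : 2 / σ ≤ a := by
    by_contra hcon
    rw [not_le] at hcon
    have := pow_lt_pow_left₀ hcon ha0 (by omega : k ≠ 0)
    rw [hak] at this
    linarith
  have haσ' : 2 ≤ σ * a := by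
    rw [div_le_iff₀ hσ0] at haσ
    linarith
  set Y : ℕ := ⌊σ * a⌋₊ with hY
  have hY1 : (Y : ℝ) ≤ σ * a := Nat.floor_le (by positivity)
  have hY2 : σ * a < Y + 1 := Nat.lt_floor_add_one _
  have hY3 : 1 ≤ Y := Nat.le_floor (by push_cast; linarith)
  -- H
  set H : ℕ := ⌊κ * n⌋₊ with hH
  have hH1 : (H : ℝ) ≤ κ * n := Nat.floor_le (by positivity)
  have hH2 : κ * n < H + 1 := Nat.lt_floor_add_one _
  have hH3 : κ * n / 2 ≤ H := by linarith
  have hqH : 4 * ((q : ℤ) * H) ≤ n := by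
    have h1 : 4 * ((q : ℝ) * H) ≤ n := by
      calc 4 * ((q : ℝ) * H) ≤ 4 * (q * (κ * n)) := by
            have := mul_le_mul_of_nonneg_left hH1 (by positivity : (0 : ℝ) ≤ q)
            linarith
        _ = (4 * q * κ) * n := by ring
        _ ≤ 1 * n := mul_le_mul_of_nonneg_right hqκ (Nat.cast_nonneg n)
        _ = n := one_mul _
    exact_mod_cast h1
  have hHpos : 1 ≤ H := Nat.le_floor (by push_cast; linarith)
  -- residues
  have hN0 : (0 : ℤ) ≤ (n : ℤ) - 2 * u := by linarith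
  obtain ⟨ρ, hρ⟩ := hloc q hq ((n : ℤ) - 2 * u).toNat
  set c : Fin s → ℕ := fun i => rep q (ρ (Fin.castSucc i)) with hc
  set c' : ℕ := rep q (ρ (Fin.last s)) with hc'
  have hc1 : ∀ i, 1 ≤ c i := fun i => rep_pos q _ hq
  have hc2 : ∀ i, c i ≤ q := fun i => rep_le q _ hq
  have hmod : (∑ i, c i ^ k) + c' ^ k ≡ ((n : ℤ) - 2 * u).toNat [MOD q] := by
    refine Nat.ModEq.trans ?_ hρ
    rw [Fin.sum_univ_castSucc]
    refine Nat.ModEq.add ?_ ((rep_mod q _).pow k)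
    refine Nat.ModEq.sum fun i _ => ?_
    exact (rep_mod q _).pow k
  set m : ℤ := ((n : ℤ) - 2 * u - ∑ i, (c i : ℤ) ^ k) with hm
  have hdiv : (q : ℤ) ∣ m - (c' : ℤ) ^ k := by
    have h1 := (Nat.modEq_iff_dvd.1 hmod)
    have h2 : ((((n : ℤ) - 2 * u).toNat : ℕ) : ℤ) = (n : ℤ) - 2 * u := Int.toNat_of_nonneg hN0
    rw [h2] at h1
    push_cast at h1
    have e : m - (c' : ℤ) ^ k = (n : ℤ) - 2 * u - ((∑ i, (c i : ℤ) ^ k) + (c' : ℤ) ^ k) := by
      rw [hm]; ring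
    rw [e]
    exact h1
  have hsum0 : 0 ≤ ∑ i, (c i : ℤ) ^ k := Finset.sum_nonneg fun i _ => by positivity
  have hsum1 : ∑ i, (c i : ℤ) ^ k ≤ s * (q : ℤ) ^ k := by
    have h1 : ∀ i ∈ (Finset.univ : Finset (Fin s)), (c i : ℤ) ^ k ≤ (q : ℤ) ^ k := fun i _ =>
      pow_le_pow_left₀ (by positivity) (by exact_mod_cast hc2 i) k
    have h2 := Finset.sum_le_card_nsmul _ _ _ h1
    rwa [Finset.card_univ, Fintype.card_fin, nsmul_eq_mul] at h2
  have hc'k : (c' : ℤ) ^ k ≤ (q : ℤ) ^ k :=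
    pow_le_pow_left₀ (by positivity) (by exact_mod_cast rep_le q _ hq) k
  have hqk0 : (0 : ℤ) < (q : ℤ) ^ k := by positivity
  have hX : 2 * (c' : ℤ) ^ k ≤ 2 * m - q * H := by
    have e : 4 * ((s : ℤ) + 1) * (q : ℤ) ^ k = 4 * (s * (q : ℤ) ^ k) + 4 * (q : ℤ) ^ k := by ring
    rw [e] at n2
    rw [hm]
    linarith
  obtain ⟨t, ht1, ht2⟩ := exists_t k q c' (by omega) hq _ hX
  set z : ℕ := c' + q * t with hz
  have hz1 : 1 ≤ z := (rep_pos q _ hq).trans (Nat.le_add_right _ _)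
  have hzq : c' + q * (t + 1) = z + q := by rw [hz]; ring
  rw [hzq] at ht2
  -- z ≤ 2 a
  have hqH0 : (0 : ℤ) ≤ (q : ℤ) * H := by positivity
  have hz2 : (z : ℝ) ≤ 2 * a := by
    by_contra hcon
    rw [not_le] at hcon
    have h1 := pow_lt_pow_left₀ hcon (by positivity) (by omega : k ≠ 0)
    rw [mul_pow, hak] at h1
    have h2 : (z : ℤ) ^ k ≤ 2 * n := by
      rw [hm] at ht1
      linarith
    have h3 : ((z : ℝ)) ^ k ≤ 2 * n := by exact_mod_cast h2
    have h4 : (2 : ℝ) ≤ 2 ^ k := by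
      calc (2 : ℝ) = 2 ^ 1 := by norm_num
        _ ≤ 2 ^ k := pow_le_pow_right₀ (by norm_num) (by omega)
    have h5 : 2 * (n : ℝ) ≤ 2 ^ k * n := mul_le_mul_of_nonneg_right h4 (Nat.cast_nonneg n)
    linarith
  -- the increment
  have hE : 4 * (((z + q * Y : ℕ) : ℤ) ^ k - (z : ℤ) ^ k) ≤ q * H := by
    have h1 : 4 * (((z + q * Y : ℕ) : ℝ) ^ k - (z : ℝ) ^ k) ≤ q * H := by
      have h2 := pow_sub_le k' (z : ℝ) ((z + q * Y : ℕ) : ℝ) (by positivity)
        (by push_cast; have : (0 : ℝ) ≤ q * Y := by positivity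
            linarith)
      rw [← hkdef] at h2
      have h3 : ((z + q * Y : ℕ) : ℝ) - z = q * Y := by push_cast; ring
      rw [h3] at h2
      have h4 : ((z + q * Y : ℕ) : ℝ) ≤ (2 + q) * a := by
        push_cast
        have h5 : (q : ℝ) * Y ≤ q * (1 * a) := by
          refine mul_le_mul_of_nonneg_left ?_ (by positivity)
          exact hY1.trans (mul_le_mul_of_nonneg_right hσ1 ha0)
        linarith
      have h5 : ((z + q * Y : ℕ) : ℝ) ^ k' ≤ ((2 + q) * a) ^ k' :=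
        pow_le_pow_left₀ (by positivity) h4 _
      have h6 : ((k' : ℝ) + 1) * ((z + q * Y : ℕ) : ℝ) ^ k' * (q * Y) ≤
          ((k' : ℝ) + 1) * ((2 + q) * a) ^ k' * (q * (σ * a)) := by
        refine mul_le_mul ?_ ?_ (by positivity) (by positivity)
        · exact mul_le_mul_of_nonneg_left h5 (by positivity)
        · exact mul_le_mul_of_nonneg_left hY1 (by positivity)
      have e1 : ((k' : ℝ) + 1) * ((2 + q) * a) ^ k' * (q * (σ * a)) = (σ * D) * q * n / 8 := by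
        rw [hD, ← hak, hkdef, mul_pow]
        push_cast
        ring
      rw [e1] at h6
      have h7 : (σ * D) * q * n ≤ κ * q * n := by
        refine mul_le_mul_of_nonneg_right ?_ (Nat.cast_nonneg n)
        exact mul_le_mul_of_nonneg_right hσD (by positivity)
      have h8 : (q : ℝ) * (κ * n / 2) ≤ q * H := mul_le_mul_of_nonneg_left hH3 (by positivity)
      have h9 : ((k' : ℝ) + 1) = ((k' + 1 : ℕ) : ℝ) := by push_cast; ring
      nlinarith [h2.trans h6, h7, h8]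
    exact_mod_cast h1
  have hdvd : ∀ y : ℕ, (q : ℤ) ∣ m - ((z + q * y : ℕ) : ℤ) ^ k := by
    intro y
    have h1 : (q : ℤ) ∣ (c' : ℤ) ^ k - ((z + q * y : ℕ) : ℤ) ^ k := by
      refine dvd_trans ?_ (sub_dvd_pow_sub_pow (c' : ℤ) ((z + q * y : ℕ) : ℤ) k)
      refine ⟨-((t : ℤ) + y), ?_⟩
      rw [hz]
      push_cast
      ring
    have h2 := dvd_add hdiv h1
    have e : m - (c' : ℤ) ^ k + ((c' : ℤ) ^ k - ((z + q * y : ℕ) : ℤ) ^ k) =
        m - ((z + q * y : ℕ) : ℤ) ^ k := by ring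
    rwa [e] at h2
  have hqz : (0 : ℤ) < q := by exact_mod_cast hq
  refine ⟨Y, z, c, fun y => (m - ((z + q * y : ℕ) : ℤ) ^ k) / q, hY3, hz1, ?_,
    fun i => ⟨hc1 i, hc2 i⟩, fun y _ => ?_, fun y hy => ?_⟩
  · have h1 : σ / 2 * a ≤ Y := by linarith
    calc (σ / 2) ^ k * (n : ℝ) = (σ / 2 * a) ^ k := by rw [mul_pow, hak]
      _ ≤ (Y : ℝ) ^ k := pow_le_pow_left₀ (by positivity) h1 k
  · exact Int.mul_ediv_cancel' (hdvd y)
  · have hw := Int.mul_ediv_cancel' (hdvd y)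
    set w : ℤ := (m - ((z + q * y : ℕ) : ℤ) ^ k) / q with hwdef
    have m1 : (z : ℤ) ^ k ≤ ((z + q * y : ℕ) : ℤ) ^ k := by
      refine pow_le_pow_left₀ (by positivity) ?_ k
      exact_mod_cast Nat.le_add_right _ _
    have m2 : ((z + q * y : ℕ) : ℤ) ^ k ≤ ((z + q * Y : ℕ) : ℤ) ^ k := by
      refine pow_le_pow_left₀ (by positivity) ?_ k
      have : z + q * y ≤ z + q * Y := Nat.add_le_add_left (Nat.mul_le_mul_left q hy.le) z
      exact_mod_cast this
    have m3 : ((z + q : ℕ) : ℤ) ^ k ≤ ((z + q * Y : ℕ) : ℤ) ^ k := by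
      refine pow_le_pow_left₀ (by positivity) ?_ k
      have : z + q ≤ z + q * Y := Nat.add_le_add_left (Nat.le_mul_of_pos_right q hY3) z
      exact_mod_cast this
    constructor
    · by_contra hcon
      rw [not_le] at hcon
      have h1 : (q : ℤ) * (4 * w) < q * H := mul_lt_mul_of_pos_left hcon hqz
      have h2 : (q : ℤ) * (4 * w) = 4 * (m - ((z + q * y : ℕ) : ℤ) ^ k) := by
        rw [← hw]; ring
      rw [h2] at h1
      linarith
    · by_contra hcon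
      rw [not_lt] at hcon
      have h1 : (q : ℤ) * H ≤ q * w := mul_le_mul_of_nonneg_left hcon hqz.le
      rw [hw] at h1
      have h2 : (0 : ℤ) < (q : ℤ) * H := by positivity
      linarith

end Pool.Agent.R781.WR
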