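import Pool.Agent.H373R2.NB.Weyl
import Pool.Agent.R500.WB.Local

/-!
# Dense sets and `k`-th powers: statements of the pieces

`ee x = exp (2 π i x)`.
-/

set_option autoImplicit false

namespace Pool.Agent.R781.WR

open Finset
open Pool.Agent.Helper602.MK (ee)
open Pool.Agent.R500.WB (Loc)

/-- `1 - (1/L) ∑_{l < L} ee (β ρ l)`. -/
noncomputable def om (L ρ : ℕ) (β : ℝ) : ℂ := 1 - (1 / (L : ℂ)) * ∑ l ∈ range L, ee (β * ((ρ : ℝ) * l))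

/-- Piece FOU. -/
def SFourier : Prop :=
  ∀ (H Y L ρ : ℕ) (w : ℕ → ℤ) (h g : ℕ → ℝ) (B : ℝ), 1 ≤ L → 0 ≤ B →
    (∀ β : ℝ, ‖∑ y ∈ range Y, ee (β * w y)‖ * ‖om L ρ β‖ ≤ B) →
    |∑ y ∈ range Y, ∑ i ∈ range H, ∑ j ∈ range H, h i * g j *
      ((if (i : ℤ) + j = w y then (1 : ℝ) else 0) -
        (1 / (L : ℝ)) * ∑ l ∈ range L, (if (i : ℤ) + j + ρ * l = w y then (1 : ℝ) else 0))| ≤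
      B * Real.sqrt (∑ i ∈ range H, h i ^ 2) * Real.sqrt (∑ j ∈ range H, g j ^ 2)

/-- Piece CORE. -/
def SCore : Prop :=
  ∀ (H Y L ρ : ℕ) (w : ℕ → ℤ) (α : ℤ → ℝ) (f η ε : ℝ),
    1 ≤ H → 1 ≤ Y → 1 ≤ L → 1 ≤ ρ → 0 < f → 0 ≤ η → 0 ≤ ε →
    (∀ v, 0 ≤ α v ∧ α v ≤ 1) → (∀ v, v < 0 ∨ (H : ℤ) ≤ v → α v = 0) →
    ∑ j ∈ range H, α j = f * H →
    (∀ v : ℤ, ∑ l ∈ range L, α (v + ρ * l) ≤ (1 + η) * f * L) →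
    4 * (ρ : ℝ) * L ≤ η * H →
    (∀ y < Y, (H : ℤ) ≤ 4 * w y ∧ w y < H) →
    (∀ β : ℝ, ‖∑ y ∈ range Y, ee (β * w y)‖ * ‖om L ρ β‖ ≤ 2 * ε * Y) →
    8 * η + 4 * ε < f / 4 →
    ∃ y < Y, ∃ i j : ℤ, 0 < α i ∧ 0 < α j ∧ i + j = w y

/-- Piece WEYL. -/
def SWeyl : Prop :=
  ∀ (k : ℕ) (ε : ℝ), 1 ≤ k → 0 < ε → ∃ (Λ : ℕ) (c : ℝ), 1 ≤ Λ ∧ 0 < c ∧
    ∀ (q z Y L : ℕ) (m : ℤ) (w : ℕ → ℤ), 1 ≤ q → 1 ≤ Y → 1 ≤ L → (L : ℝ) ≤ c * (Y : ℝ) ^ k →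
      (∀ y < Y, (q : ℤ) * w y = m - ((z + q * y : ℕ) : ℤ) ^ k) →
      ∀ β : ℝ, ‖∑ y ∈ range Y, ee (β * w y)‖ * ‖om L (k.factorial * q ^ (k - 1) * Λ) β‖ ≤ 2 * ε * Y

/-- The number of elements of `A` in the progression of length `H` with the first term `u` and the
difference `q`. -/
noncomputable def cnt (A : Set ℤ) (u : ℤ) (q H : ℕ) : ℕ := by
  classical
  exact ((range H).filter fun j : ℕ => u + (q : ℤ) * j ∈ A).card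

/-- Piece INCR. -/
def SIncr : Prop :=
  ∀ (A : Set ℤ) (q H : ℕ → ℕ) (δ η : ℝ) (J : ℕ), 0 < δ → 0 < η → 1 < (1 + η) ^ J * δ →
    (∀ j ≤ J, 1 ≤ H j) → (∃ u, δ * H 0 ≤ cnt A u (q 0) (H 0)) →
    ∃ j < J, ∃ u : ℤ, δ * H j ≤ cnt A u (q j) (H j) ∧
      ∀ u' : ℤ, (cnt A u' (q (j + 1)) (H (j + 1)) : ℝ) * H j ≤
        (1 + η) * cnt A u (q j) (H j) * H (j + 1)

/-- Piece SEL. -/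
def SSel : Prop :=
  ∀ (k s : ℕ), 1 ≤ k → (∀ q, 1 ≤ q → Loc k (s + 1) q) → ∀ (q : ℕ) (κ : ℝ), 1 ≤ q → 0 < κ →
    4 * q * κ ≤ 1 →
    ∃ (τ : ℝ) (n₀ : ℕ), 0 < τ ∧ ∀ n : ℕ, n₀ ≤ n → ∀ u : ℤ, -(n : ℤ) ≤ 4 * u → 4 * u ≤ n →
      ∃ (Y z : ℕ) (c : Fin s → ℕ) (w : ℕ → ℤ), 1 ≤ Y ∧ 1 ≤ z ∧ τ * n ≤ (Y : ℝ) ^ k ∧
        (∀ i, 1 ≤ c i ∧ c i ≤ q) ∧
        (∀ y < Y, (q : ℤ) * w y =
          ((n : ℤ) - 2 * u - ∑ i, (c i : ℤ) ^ k) - ((z + q * y : ℕ) : ℤ) ^ k) ∧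
        ∀ y < Y, (⌊κ * n⌋₊ : ℤ) ≤ 4 * w y ∧ w y < ⌊κ * n⌋₊

end Pool.Agent.R781.WR
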